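import Pool.Agent.NH21.AU.Stm

/-!
# AU-4: number of the nonzero coefficients of a combination
-/

set_option autoImplicit false

namespace Pool.Agent.NH21.AU

open Polynomial Finset

namespace MulPart

theorem pow_eq_expand (k : ℕ) (f : PowerSeries (ZMod 2)) :
    f ^ (2 ^ k) = PowerSeries.expand (2 ^ k) (by positivity) f := by
  have h := MvPowerSeries.map_iterateFrobenius_expand (σ := Unit) 2 two_ne_zero f k
  rw [← h]
  have hid : iterateFrobenius (ZMod 2) 2 k = RingHom.id (ZMod 2) := by
    ext x
    simp [iterateFrobenius_def]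
  rw [hid, MvPowerSeries.map_id]
  rfl

open Classical in
theorem sub (J : ℕ) (a : ℕ → (ZMod 2)[X]) (R : PowerSeries (ZMod 2)) (x : ℕ) :
    ((range (x + 1)).filter fun n => PowerSeries.coeff n (rel J a R) ≠ 0) ⊆
      (range (J + 1)).biUnion fun i => (a i).support.biUnion fun j =>
        ((range (x + 1)).filter fun m => PowerSeries.coeff m R ≠ 0).image
          fun m => 4 ^ i * m + j := by
  intro n hn
  rw [mem_filter, mem_range] at hn
  obtain ⟨hnx, hn⟩ := hn
  unfold rel at hn
  rw [map_sum] at hn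
  obtain ⟨i, hi, hne⟩ := Finset.exists_ne_zero_of_sum_ne_zero hn
  have e : (4 : ℕ) ^ i = 2 ^ (2 * i) := by
    rw [pow_mul]
    norm_num
  rw [e, pow_eq_expand, PowerSeries.coeff_mul] at hne
  obtain ⟨⟨j, l⟩, hjl, hne⟩ := Finset.exists_ne_zero_of_sum_ne_zero hne
  rw [HasAntidiagonal.mem_antidiagonal] at hjl
  simp only at hjl hne
  have hj : (a i).coeff j ≠ 0 := by
    intro h
    apply hne
    rw [Polynomial.coeff_coe, h, zero_mul]
  have hl : PowerSeries.coeff l (PowerSeries.expand (2 ^ (2 * i)) (by positivity) R) ≠ 0 := by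
    intro h
    apply hne
    rw [h, mul_zero]
  rw [PowerSeries.coeff_expand] at hl
  split_ifs at hl with hd
  · obtain ⟨m, rfl⟩ := hd
    have hpos : 0 < 2 ^ (2 * i) := by positivity
    rw [Nat.mul_div_cancel_left _ hpos] at hl
    simp only [mem_biUnion, mem_image, mem_filter, mem_range]
    refine ⟨i, mem_range.1 hi, j, Polynomial.mem_support_iff.2 hj, m, ⟨?_, hl⟩, ?_⟩
    · have : m ≤ 2 ^ (2 * i) * m := Nat.le_mul_of_pos_left m hpos
      omega
    · rw [e]
      omega
  · exact absurd rfl hl

end MulPart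

theorem t_MUL : S_MUL := by
  classical
  intro J a
  refine ⟨∑ i ∈ range (J + 1), (a i).support.card, fun R x => ?_⟩
  unfold nzc
  refine (card_le_card (MulPart.sub J a R x)).trans ?_
  refine card_biUnion_le.trans ?_
  rw [Finset.sum_mul]
  refine Finset.sum_le_sum fun i _ => ?_
  refine card_biUnion_le.trans ?_
  rw [Finset.card_eq_sum_ones, Finset.sum_mul]
  refine Finset.sum_le_sum fun j _ => ?_
  rw [one_mul]
  exact card_image_le

end Pool.Agent.NH21.AU
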