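import Pool.Agent.NH21.AU.Stm2
import Pool.Agent.NH21.AU.MUL

/-!
# Powers of the parts of a power series over the field with two elements
-/

set_option autoImplicit false

namespace Pool.Agent.NH21.AU

namespace ClsPart

theorem four_pow (i : ℕ) : (4 : ℕ) ^ i = 2 ^ (2 * i) := by
  rw [pow_mul]
  norm_num

theorem coeff_pow_four (G : PowerSeries (ZMod 2)) (i n : ℕ) :
    PowerSeries.coeff n (G ^ (4 ^ i)) = if 4 ^ i ∣ n then PowerSeries.coeff (n / 4 ^ i) G else 0 := by
  rw [four_pow, MulPart.pow_eq_expand, PowerSeries.coeff_expand]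

theorem cls_mul {M r : ℕ} (P H : PowerSeries (ZMod 2))
    (hH : ∀ q, ¬ M ∣ q → PowerSeries.coeff q H = 0) :
    cls M r P * H = cls M r (P * H) := by
  ext n
  unfold cls
  rw [PowerSeries.coeff_mul, PowerSeries.coeff_mk, PowerSeries.coeff_mul]
  simp only [PowerSeries.coeff_mk]
  by_cases hn : n % M = r % M
  · rw [if_pos hn]
    refine Finset.sum_congr rfl fun z hz => ?_
    have hz' : z.1 + z.2 = n := Finset.HasAntidiagonal.mem_antidiagonal.1 hz
    by_cases hq : M ∣ z.2
    · have h1 : z.1 % M = n % M := by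
        obtain ⟨k, hk⟩ := hq
        rw [← hz', hk, Nat.add_mul_mod_self_left]
      rw [if_pos (h1.trans hn)]
    · rw [hH _ hq, mul_zero, mul_zero]
  · rw [if_neg hn]
    refine Finset.sum_eq_zero fun z hz => ?_
    have hz' : z.1 + z.2 = n := Finset.HasAntidiagonal.mem_antidiagonal.1 hz
    by_cases hq : M ∣ z.2
    · have h1 : z.1 % M = n % M := by
        obtain ⟨k, hk⟩ := hq
        rw [← hz', hk, Nat.add_mul_mod_self_left]
      rw [if_neg (fun h => hn (h1.symm.trans h)), zero_mul]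
    · rw [hH _ hq, mul_zero]

end ClsPart

open ClsPart in
theorem t_CLS : S_CLS := by
  refine ⟨?_, ?_⟩
  · intro b r i E P F hi hb hPF
    have h1 : F ^ (4 ^ E) = (F ^ (4 ^ (E - i))) ^ (4 ^ i) := by
      rw [← pow_mul, ← pow_add, Nat.sub_add_cancel hi]
    have h2 : P * F ^ (4 ^ (E - i)) = F ^ (4 ^ (E - i) - 1) := by
      have h3 : 4 ^ (E - i) = (4 ^ (E - i) - 1) + 1 :=
        (Nat.sub_add_cancel (Nat.one_le_pow _ _ (by norm_num))).symm
      conv_lhs => rw [h3, pow_succ]
      rw [mul_comm (F ^ _) F, ← mul_assoc, hPF, one_mul]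
    rw [h1, ← mul_pow, cls_mul, h2]
    intro q hq
    rw [coeff_pow_four, if_neg]
    exact fun h => hq (hb.trans h)
  · intro M r i n G
    rw [coeff_pow_four]
    unfold cls
    rw [PowerSeries.coeff_mk]
    by_cases h1 : 4 ^ i ∣ n
    · rw [if_pos h1]
      by_cases h2 : (n / 4 ^ i) % M = r % M
      · rw [if_pos h2, if_pos ⟨h1, h2⟩]
      · rw [if_neg h2, if_neg (fun h => h2 h.2)]
    · rw [if_neg h1, if_neg (fun h => h1 h.1)]

end Pool.Agent.NH21.AU
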