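import Pool.Agent.NH21.AU.Stm

/-!
# Change of the relation
-/

set_option autoImplicit false

namespace Pool.Agent.NH21.AU

open Polynomial Finset

theorem t_COMB : S_COMB := by
  intro J a' U P C L hC ha' hU
  have hch : CharP (PowerSeries (ZMod 2)) 2 :=
    charP_of_injective_algebraMap (R := ZMod 2) (A := PowerSeries (ZMod 2))
      (FaithfulSMul.algebraMap_injective _ _) 2
  have hadd : ∀ (i : ℕ) (x y : PowerSeries (ZMod 2)), (x + y) ^ (4 ^ i) = x ^ (4 ^ i) + y ^ (4 ^ i) := by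
    intro i x y
    have h4 : (4 : ℕ) ^ i = 2 ^ (2 * i) := by
      rw [pow_mul]
      norm_num
    rw [h4]
    exact add_pow_char_pow x y 2 (2 * i)
  refine ⟨fun i => a' i * X ^ (L * (4 ^ J - 4 ^ i)),
    fun i => a' i * X ^ (L * (4 ^ J - 4 ^ i)) * C ^ (4 ^ i), ?_, ?_⟩
  · exact mul_ne_zero (mul_ne_zero ha' (pow_ne_zero _ X_ne_zero)) (pow_ne_zero _ hC)
  · have e1 : ∑ i ∈ range (J + 1), (((a' i * X ^ (L * (4 ^ J - 4 ^ i)) : (ZMod 2)[X])) : PowerSeries (ZMod 2)) *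
        (PowerSeries.X ^ L * U) ^ (4 ^ i) = PowerSeries.X ^ (L * 4 ^ J) * rel J a' U := by
      unfold rel
      rw [Finset.mul_sum]
      apply Finset.sum_congr rfl
      intro i hi
      have hle : 4 ^ i ≤ 4 ^ J := Nat.pow_le_pow_right (by norm_num) (by
        have := Finset.mem_range.1 hi
        omega)
      have h5 : L * (4 ^ J - 4 ^ i) + L * 4 ^ i = L * 4 ^ J := by
        rw [← Nat.mul_add, Nat.sub_add_cancel hle]
      rw [Polynomial.coe_mul, Polynomial.coe_pow, Polynomial.coe_X, mul_pow, ← pow_mul, ← h5, pow_add]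
      ring
    unfold rel at e1 hU ⊢
    rw [hU, mul_zero] at e1
    have e2 : ∀ i ∈ range (J + 1), (((a' i * X ^ (L * (4 ^ J - 4 ^ i)) : (ZMod 2)[X])) : PowerSeries (ZMod 2)) *
        ((C : PowerSeries (ZMod 2)) * P + PowerSeries.X ^ L * U) ^ (4 ^ i) =
        (((a' i * X ^ (L * (4 ^ J - 4 ^ i)) * C ^ (4 ^ i) : (ZMod 2)[X])) : PowerSeries (ZMod 2)) *
          P ^ (4 ^ i) +
        (((a' i * X ^ (L * (4 ^ J - 4 ^ i)) : (ZMod 2)[X])) : PowerSeries (ZMod 2)) *
          (PowerSeries.X ^ L * U) ^ (4 ^ i) := by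
      intro i _
      rw [hadd, mul_add, mul_pow (C : PowerSeries (ZMod 2)) P, Polynomial.coe_mul _ (C ^ (4 ^ i)),
        Polynomial.coe_pow (4 ^ i)]
      ring
    rw [Finset.sum_congr rfl e2, Finset.sum_add_distrib, e1, add_zero]

end Pool.Agent.NH21.AU
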