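import Pool.Agent.NH21.AU.Stm

/-!
# AU-3 (helper23): a residue class on which finitely many shifts are exactly divisible by many primes
-/

set_option autoImplicit false

namespace Pool.Agent.NH21.AU

open Finset

namespace CRT

/-- one step of the construction -/
theorem crt_step (h : ℤ) (hh : h ≠ 0) (Q a : ℕ) (hQ : 0 < Q) (hco : a.Coprime Q) :
    ∃ r a' : ℕ, r.Prime ∧ r % 8 = 3 ∧ Q.Coprime r ∧ a' ≡ a [MOD Q] ∧ a'.Coprime (Q * r ^ 2) ∧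
      ∀ z : ℤ, z ≡ a' [ZMOD ((Q * r ^ 2 : ℕ) : ℤ)] →
        (r : ℤ) ∣ z + h ∧ ¬ ((r : ℤ) ^ 2 ∣ z + h) := by
  obtain ⟨r, hr1, hr2, hr3⟩ := Nat.forall_exists_prime_gt_and_modEq (Q + h.natAbs) (q := 8) (a := 3)
    (by norm_num) (by decide)
  have hr4 : r % 8 = 3 := hr3
  have hQr : Q.Coprime r := by
    rw [Nat.coprime_comm, Nat.Prime.coprime_iff_not_dvd hr2]
    intro h'
    have := Nat.le_of_dvd hQ h'
    omega
  have hQr2 : Q.Coprime (r ^ 2) := hQr.pow_right 2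
  have hr0 : 0 < r := hr2.pos
  have hr2pos : (0 : ℤ) < (r : ℤ) ^ 2 := by positivity
  set τ : ℕ := (((r : ℤ) - h) % ((r : ℤ) ^ 2)).toNat with hτ
  have hτZ : (τ : ℤ) = ((r : ℤ) - h) % ((r : ℤ) ^ 2) :=
    Int.toNat_of_nonneg (Int.emod_nonneg _ hr2pos.ne')
  obtain ⟨a', ha1, ha2⟩ := Nat.chineseRemainder hQr2 a τ
  have hz : ∀ z : ℤ, z ≡ a' [ZMOD ((Q * r ^ 2 : ℕ) : ℤ)] →
      ∃ k : ℤ, z + h = r + r ^ 2 * k := by
    intro z hz
    have h1 : z ≡ a' [ZMOD ((r ^ 2 : ℕ) : ℤ)] := by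
      apply hz.of_dvd
      exact_mod_cast Dvd.intro_left Q rfl
    have h2 : (a' : ℤ) ≡ τ [ZMOD ((r ^ 2 : ℕ) : ℤ)] := (Int.natCast_modEq_iff).2 ha2
    have h3 : (τ : ℤ) ≡ (r : ℤ) - h [ZMOD ((r ^ 2 : ℕ) : ℤ)] := by
      rw [hτZ]
      push_cast
      exact Int.mod_modEq _ _
    obtain ⟨k, hk⟩ := ((h1.trans h2).trans h3).symm.dvd
    refine ⟨k, ?_⟩
    push_cast at hk
    linear_combination hk
  have hdvd : ∀ z : ℤ, z ≡ a' [ZMOD ((Q * r ^ 2 : ℕ) : ℤ)] →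
        (r : ℤ) ∣ z + h ∧ ¬ ((r : ℤ) ^ 2 ∣ z + h) := by
    intro z hz'
    obtain ⟨k, hk⟩ := hz z hz'
    rw [hk]
    refine ⟨dvd_add (dvd_refl _) (Dvd.dvd.mul_right (dvd_pow_self _ two_ne_zero) _), fun h' => ?_⟩
    have h3 : (r : ℤ) ^ 2 ∣ r := (Int.dvd_add_left (Dvd.intro k rfl)).1 h'
    have h4 : (r : ℤ) ^ 2 ≤ r := Int.le_of_dvd (by exact_mod_cast hr0) h3
    have h5 : (2 : ℤ) ≤ r := by exact_mod_cast hr2.two_le
    nlinarith
  refine ⟨r, a', hr2, hr4, hQr, ha1, ?_, hdvd⟩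
  apply Nat.Coprime.mul_right
  · have := Nat.ModEq.gcd_eq ha1
    rw [Nat.Coprime, this]
    exact hco
  · apply Nat.Coprime.pow_right
    rw [Nat.coprime_comm, Nat.Prime.coprime_iff_not_dvd hr2]
    intro h'
    have h1 := (hdvd a' (Int.ModEq.refl _)).1
    have h2 : (r : ℤ) ∣ a' := by exact_mod_cast h'
    have h3 : (r : ℤ) ∣ h := by
      have := dvd_sub h1 h2
      have e : (a' : ℤ) + h - a' = h := by ring
      rwa [e] at this
    have h5 := Int.le_of_dvd (abs_pos.2 hh) ((dvd_abs _ _).2 h3)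
    rw [Int.abs_eq_natAbs] at h5
    omega

/-- several primes for one shift -/
theorem crt_one (h : ℤ) (hh : h ≠ 0) (H : ℕ) :
    ∀ Q a : ℕ, 0 < Q → a.Coprime Q → ∃ Q' a' : ℕ, ∃ R : Finset ℕ, 0 < Q' ∧ Q ∣ Q' ∧
      a' ≡ a [MOD Q] ∧ a'.Coprime Q' ∧ R.card = H ∧ (∀ r ∈ R, r ∣ Q') ∧
      ∀ z : ℤ, z ≡ a' [ZMOD (Q' : ℤ)] → ∀ r ∈ R, r.Prime ∧ r % 8 = 3 ∧
        (r : ℤ) ∣ z + h ∧ ¬ ((r : ℤ) ^ 2 ∣ z + h) := by
  classical
  induction H with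
  | zero =>
    intro Q a hQ hco
    exact ⟨Q, a, ∅, hQ, dvd_refl _, Nat.ModEq.refl _, hco, by simp, by simp, by simp⟩
  | succ H ih =>
    intro Q a hQ hco
    obtain ⟨Q', a', R, h1, h2, h3, h4, h5, h6, h7⟩ := ih Q a hQ hco
    obtain ⟨r, a'', g1, g2, g3, g4, g5, g6⟩ := crt_step h hh Q' a' h1 h4
    have hrR : r ∉ R := by
      intro h'
      have := h6 r h'
      exact g1.one_lt.ne' (Nat.Coprime.eq_one_of_dvd g3.symm this)
    have hr0 := g1.pos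
    refine ⟨Q' * r ^ 2, a'', insert r R, by positivity, h2.mul_right _, (g4.of_dvd h2).trans h3, g5,
      by rw [card_insert_of_notMem hrR, h5], ?_, ?_⟩
    · intro s hs
      rw [mem_insert] at hs
      rcases hs with rfl | hs
      · exact Dvd.dvd.mul_left (dvd_pow_self _ two_ne_zero) _
      · exact (h6 s hs).mul_right _
    · intro z hz s hs
      rw [mem_insert] at hs
      rcases hs with rfl | hs
      · exact ⟨g1, g2, g6 z hz⟩
      · apply h7 z _ s hs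
        have e1 : z ≡ a'' [ZMOD (Q' : ℤ)] := by
          apply hz.of_dvd
          exact_mod_cast Dvd.intro _ rfl
        exact e1.trans ((Int.natCast_modEq_iff).2 g4)

/-- the residue class -/
theorem crtH (H μ : ℕ) (hμ : μ % 2 = 1) (s : Finset ℤ) (hs : ∀ h ∈ s, h ≠ 0) :
    ∃ Q a : ℕ, 0 < Q ∧ 8 ∣ Q ∧ a.Coprime Q ∧ a ≡ μ [MOD 8] ∧
      ∀ z : ℤ, z ≡ a [ZMOD (Q : ℤ)] → ∀ h ∈ s, ∃ R : Finset ℕ, R.card = H ∧ ∀ r ∈ R,
        r.Prime ∧ r % 8 = 3 ∧ (r : ℤ) ∣ z + h ∧ ¬ ((r : ℤ) ^ 2 ∣ z + h) := by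
  classical
  induction s using Finset.induction_on with
  | empty =>
    refine ⟨8, μ, by norm_num, dvd_refl _, ?_, Nat.ModEq.refl _, by simp⟩
    have : (8 : ℕ) = 2 ^ 3 := by norm_num
    rw [this]
    apply Nat.Coprime.pow_right
    rw [Nat.coprime_comm, Nat.coprime_two_left, Nat.odd_iff]
    exact hμ
  | insert i s his ih =>
    obtain ⟨Q, a, h1, h2, h3, h4, h5⟩ := ih fun j hj => hs j (mem_insert_of_mem hj)
    obtain ⟨Q', a', R, g1, g2, g3, g4, g5, g6, g7⟩ := crt_one i (hs i (mem_insert_self _ _)) H Q a h1 h3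
    refine ⟨Q', a', g1, h2.trans g2, g4, (g3.of_dvd h2).trans h4, ?_⟩
    intro z hz j hj
    rw [mem_insert] at hj
    rcases hj with rfl | hj
    · exact ⟨R, g5, g7 z hz⟩
    · apply h5 z _ j hj
      have e1 : z ≡ a' [ZMOD (Q : ℤ)] := by
        apply hz.of_dvd
        exact_mod_cast g2
      exact e1.trans ((Int.natCast_modEq_iff).2 g3)

end CRT

theorem t_CRT : S_CRT := by
  intro H μ hμ hs h0
  obtain ⟨Q, a, h1, h2, h3, h4, h5⟩ := CRT.crtH H μ hμ hs (fun h hh => by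
    rintro rfl
    exact h0 hh)
  refine ⟨Q, a, h1, h2, h3, h4, fun z hz h hh => ?_⟩
  exact h5 z ((Int.natCast_modEq_iff).2 hz) h hh

end Pool.Agent.NH21.AU
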