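import Pool.Agent.NH21.AU.Stm2
import Pool.Agent.NH21.AU.CRT

/-!
# AV-1 (helper89, after helper23): the residue class of `S_CRT` with a prescribed power of two
-/

set_option autoImplicit false

namespace Pool.Agent.NH21.AU

open Finset

namespace CRT2

/-- the residue class -/
theorem crtH (H t μ : ℕ) (hμ : μ % 2 = 1) (s : Finset ℤ) (hs : ∀ h ∈ s, h ≠ 0) :
    ∃ Q a : ℕ, 0 < Q ∧ 2 ^ t ∣ Q ∧ a.Coprime Q ∧ a ≡ μ [MOD 2 ^ t] ∧
      ∀ z : ℤ, z ≡ a [ZMOD (Q : ℤ)] → ∀ h ∈ s, ∃ R : Finset ℕ, R.card = H ∧ ∀ r ∈ R,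
        r.Prime ∧ r % 8 = 3 ∧ (r : ℤ) ∣ z + h ∧ ¬ ((r : ℤ) ^ 2 ∣ z + h) := by
  classical
  induction s using Finset.induction_on with
  | empty =>
    refine ⟨2 ^ t, μ, by positivity, dvd_refl _, ?_, Nat.ModEq.refl _, by simp⟩
    apply Nat.Coprime.pow_right
    rw [Nat.coprime_comm, Nat.coprime_two_left, Nat.odd_iff]
    exact hμ
  | insert i s his ih =>
    obtain ⟨Q, a, h1, h2, h3, h4, h5⟩ := ih fun j hj => hs j (mem_insert_of_mem hj)
    obtain ⟨Q', a', R, g1, g2, g3, g4, g5, g6, g7⟩ :=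
      CRT.crt_one i (hs i (mem_insert_self _ _)) H Q a h1 h3
    refine ⟨Q', a', g1, h2.trans g2, g4, (g3.of_dvd h2).trans h4, ?_⟩
    intro z hz j hj
    rw [mem_insert] at hj
    rcases hj with rfl | hj
    · exact ⟨R, g5, g7 z hz⟩
    · apply h5 z _ j hj
      have e1 : z ≡ a' [ZMOD (Q : ℤ)] := by
        apply hz.of_dvd
        exact_mod_cast g2
      exact e1.trans ((Int.natCast_modEq_iff).2 g3)

end CRT2

theorem t_CRT2 : S_CRT2 := by
  intro H t μ hμ hs h0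
  obtain ⟨Q, a, h1, h2, h3, h4, h5⟩ := CRT2.crtH H t μ hμ hs (fun h hh => by
    rintro rfl
    exact h0 hh)
  refine ⟨Q, a, h1, h2, h3, h4, fun z hz h hh => ?_⟩
  exact h5 z ((Int.natCast_modEq_iff).2 hz) h hh

end Pool.Agent.NH21.AU
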