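import Pool.Agent.NH21.AU.Stm

/-!
# The powers `U ^ (4 ^ i)` of a 2-automatic series are dependent over the polynomials
-/

set_option autoImplicit false

namespace Pool.Agent.NH21.AU

open Polynomial Finset

namespace Dep

theorem pow_eq_expand (k : ℕ) (f : PowerSeries (ZMod 2)) :
    f ^ (2 ^ k) = PowerSeries.expand (2 ^ k) (by positivity) f := by
  have h := MvPowerSeries.map_iterateFrobenius_expand (σ := Unit) 2 two_ne_zero f k
  rw [← h]
  have hid : iterateFrobenius (ZMod 2) 2 k = RingHom.id (ZMod 2) := by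
    ext x; simp [iterateFrobenius_def]
  rw [hid, MvPowerSeries.map_id]
  rfl

instance charP_ps : CharP (PowerSeries (ZMod 2)) 2 :=
  charP_of_injective_algebraMap (R := ZMod 2) (A := PowerSeries (ZMod 2))
    (FaithfulSMul.algebraMap_injective _ _) 2

theorem split (v : ℕ → ZMod 2) : PowerSeries.mk v =
    ∑ r ∈ range 4, (PowerSeries.X : PowerSeries (ZMod 2)) ^ r *
      (PowerSeries.mk fun n => v (4 * n + r)) ^ 4 := by
  ext n
  rw [map_sum, PowerSeries.coeff_mk]
  have h4 : ∀ f : PowerSeries (ZMod 2), f ^ 4 = PowerSeries.expand 4 (by norm_num) f := by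
    intro f
    have := pow_eq_expand 2 f
    simpa using this
  have key : ∀ r ∈ range 4, PowerSeries.coeff n ((PowerSeries.X : PowerSeries (ZMod 2)) ^ r *
      (PowerSeries.mk fun n => v (4 * n + r)) ^ 4) = if r = n % 4 then v n else 0 := by
    intro r hr
    have hr4 : r < 4 := mem_range.1 hr
    rw [h4, PowerSeries.coeff_X_pow_mul']
    by_cases h : r = n % 4
    · rw [if_pos h, if_pos (by omega), PowerSeries.coeff_expand, if_pos (by omega),
        PowerSeries.coeff_mk]
      congr 1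
      omega
    · rw [if_neg h]
      by_cases h2 : r ≤ n
      · rw [if_pos h2, PowerSeries.coeff_expand, if_neg (by omega)]
      · rw [if_neg h2]
  rw [sum_congr rfl key, Finset.sum_ite_eq', if_pos (mem_range.2 (by omega))]

end Dep

theorem t_DEP : S_DEP := by
  intro u hu
  classical
  have hu' : {v : ℕ → ZMod 2 | ∃ k r : ℕ, r < 2 ^ k ∧ v = fun n => u (2 ^ k * n + r)}.Finite := hu
  obtain ⟨K, hmem⟩ : ∃ K : Finset (ℕ → ZMod 2), ∀ v : ℕ → ZMod 2,
      v ∈ K ↔ ∃ k r : ℕ, r < 2 ^ k ∧ v = fun n => u (2 ^ k * n + r) :=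
    ⟨hu'.toFinset, fun v => Set.Finite.mem_toFinset hu'⟩
  have huK : u ∈ K := (hmem u).2 ⟨0, 0, by norm_num, by funext n; simp⟩
  have hstep : ∀ v ∈ K, ∀ r ∈ range 4, (fun n => v (4 * n + r)) ∈ K := by
    intro v hv r hr
    have hr4 : r < 4 := mem_range.1 hr
    obtain ⟨k, r', hr', rfl⟩ := (hmem v).1 hv
    refine (hmem _).2 ⟨k + 2, 2 ^ k * r + r', ?_, ?_⟩
    · rw [pow_add]
      nlinarith [Nat.pos_of_ne_zero (pow_ne_zero k (two_ne_zero (α := ℕ)))]
    · funext n
      change u (2 ^ k * (4 * n + r) + r') = u (2 ^ (k + 2) * n + (2 ^ k * r + r'))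
      have e : 2 ^ k * (4 * n + r) + r' = 2 ^ (k + 2) * n + (2 ^ k * r + r') := by
        rw [pow_add]
        ring
      rw [e]
  set q := K.card with hq
  set w : Finset (PowerSeries (ZMod 2)) := K.image fun v => (PowerSeries.mk v) ^ (4 ^ q) with hw
  have hwc : w.card ≤ q := card_image_le
  have hsm : ∀ (p : (ZMod 2)[X]) (f : PowerSeries (ZMod 2)), p • f = (p : PowerSeries (ZMod 2)) * f := by
    intro p f
    rw [Algebra.smul_def]
    rfl
  have hspan : ∀ j ≤ q, ∀ v ∈ K, (PowerSeries.mk v) ^ (4 ^ (q - j)) ∈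
      Submodule.span (ZMod 2)[X] (w : Set (PowerSeries (ZMod 2))) := by
    intro j
    induction j with
    | zero =>
      intro _ v hv
      apply Submodule.subset_span
      rw [Finset.mem_coe, hw, mem_image]
      exact ⟨v, hv, by simp⟩
    | succ j ih =>
      intro hj v hv
      have e1 : (4 : ℕ) ^ (q - (j + 1)) = 2 ^ (2 * (q - (j + 1))) := by
        rw [pow_mul]
        norm_num
      rw [Dep.split v, e1, sum_pow_char_pow]
      refine Submodule.sum_mem _ fun r hr => ?_
      have e2 : ((PowerSeries.X : PowerSeries (ZMod 2)) ^ r *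
          (PowerSeries.mk fun n => v (4 * n + r)) ^ 4) ^ (2 ^ (2 * (q - (j + 1)))) =
          (X ^ (r * 4 ^ (q - (j + 1))) : (ZMod 2)[X]) •
            (PowerSeries.mk fun n => v (4 * n + r)) ^ (4 ^ (q - j)) := by
        rw [hsm, ← e1, mul_pow, ← pow_mul, ← pow_mul, Polynomial.coe_pow, Polynomial.coe_X]
        congr 2
        have : q - j = (q - (j + 1)) + 1 := by omega
        rw [this, pow_succ, mul_comm]
      rw [e2]
      exact Submodule.smul_mem _ _ (ih (by omega) _ (hstep v hv r hr))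
  have hdep : ¬ LinearIndependent (ZMod 2)[X]
      (fun i : Fin (q + 1) => (PowerSeries.mk u) ^ (4 ^ (i : ℕ))) := by
    intro hli
    have h1 := linearIndependent_le_span_aux' _ hli (w : Set (PowerSeries (ZMod 2))) (by
      rintro _ ⟨i, rfl⟩
      have h2 := hspan (q - i) (by omega) u huK
      have h3 : q - (q - (i : ℕ)) = i := by omega
      rw [h3] at h2
      exact h2)
    rw [Fintype.card_fin] at h1
    have h2 : Fintype.card (w : Set (PowerSeries (ZMod 2))) = w.card := by
      simp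
    omega
  obtain ⟨g, hg, i0, hi0⟩ := Fintype.not_linearIndependent_iff.1 hdep
  refine ⟨q, fun i => if h : i < q + 1 then g ⟨i, h⟩ else 0, ⟨i0, by omega, ?_⟩, ?_⟩
  · change (if h : (i0 : ℕ) < q + 1 then g ⟨i0, h⟩ else 0) ≠ 0
    rw [dif_pos i0.2]
    exact hi0
  · rw [rel, Finset.sum_range]
    rw [← hg]
    refine sum_congr rfl fun i _ => ?_
    rw [hsm, dif_pos i.2]

end Pool.Agent.NH21.AU
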