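import Pool.Agent.NH21.AU.Stm2

/-!
# Distance `k`: automatic sequences, changes, and patterns
-/

set_option autoImplicit false

namespace Pool.Agent.NH21.AU

open Finset

namespace Dist

/-- `u (n) + u (n + k)` is 2-automatic -/
theorem aut_add (u : ℕ → ZMod 2) (hu : Aut u) (k : ℕ) : Aut (fun n => u n + u (n + k)) := by
  unfold Aut at hu ⊢
  set S : Set (ℕ → ZMod 2) := {v : ℕ → ZMod 2 | ∃ k r : ℕ, r < 2 ^ k ∧ v = fun n => u (2 ^ k * n + r)}
    with hS
  have h1 : {v : ℕ → ZMod 2 | ∃ m r : ℕ, r < 2 ^ m ∧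
      v = fun n => u (2 ^ m * n + r) + u (2 ^ m * n + r + k)} ⊆
      (fun p : (ℕ → ZMod 2) × ((ℕ → ZMod 2) × ℕ) => fun n : ℕ => p.1 n + p.2.1 (n + p.2.2)) ''
        (S ×ˢ (S ×ˢ (↑(range (k + 1)) : Set ℕ))) := by
    rintro v ⟨m, r, hr, rfl⟩
    have hm : 0 < 2 ^ m := by positivity
    refine ⟨(fun n => u (2 ^ m * n + r), (fun n => u (2 ^ m * n + (r + k) % 2 ^ m), (r + k) / 2 ^ m)),
      ⟨⟨m, r, hr, rfl⟩, ⟨m, (r + k) % 2 ^ m, Nat.mod_lt _ hm, rfl⟩, ?_⟩, ?_⟩
    · simp only [coe_range, Set.mem_Iio]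
      rw [Nat.div_lt_iff_lt_mul hm]
      have h2 : k ≤ k * 2 ^ m := Nat.le_mul_of_pos_right k hm
      calc r + k < 2 ^ m + k * 2 ^ m := by omega
        _ = (k + 1) * 2 ^ m := by ring
    · funext n
      simp only
      congr 2
      have h3 := Nat.div_add_mod (r + k) (2 ^ m)
      calc 2 ^ m * (n + (r + k) / 2 ^ m) + (r + k) % 2 ^ m
          = 2 ^ m * n + (2 ^ m * ((r + k) / 2 ^ m) + (r + k) % 2 ^ m) := by ring
        _ = 2 ^ m * n + r + k := by rw [h3]; ring
  exact Set.Finite.subset (Set.Finite.image _ (hu.prod (hu.prod (finite_toSet _)))) h1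

/-- ups and downs at distance `k` -/
theorem updown (v : ℕ → Prop) [DecidablePred v] (k y : ℕ) :
    ((range y).filter fun n => ¬ v n ∧ v (n + k)).card + ((range y).filter v).card +
      ((range k).filter v).card =
    ((range y).filter fun n => v n ∧ ¬ v (n + k)).card + ((range (y + k)).filter v).card := by
  simp only [card_filter]
  induction y with
  | zero => simp
  | succ y ih =>
    rw [show y + 1 + k = (y + k) + 1 by ring]
    simp only [sum_range_succ]
    by_cases h1 : v y <;> by_cases h2 : v (y + k) <;> simp only [h1, h2, not_true, not_false_iff,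
      and_self, and_true, true_and, and_false, false_and, if_true, if_false] <;> omega

theorem range_le (v : ℕ → Prop) [DecidablePred v] (k y : ℕ) :
    ((range y).filter v).card ≤ ((range (y + k)).filter v).card ∧
    ((range (y + k)).filter v).card ≤ ((range y).filter v).card + k ∧
    ((range k).filter v).card ≤ k := by
  refine ⟨card_le_card (filter_subset_filter _ (range_subset_range.2 (by omega))), ?_, ?_⟩
  · simp only [card_filter]
    rw [sum_range_add]
    apply Nat.add_le_add_left
    calc ∑ i ∈ range k, (if v (y + i) then 1 else 0) ≤ ∑ i ∈ range k, 1 :=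
          sum_le_sum fun i _ => by split_ifs <;> omega
      _ = k := by simp
  · calc _ ≤ (range k).card := card_filter_le _ _
      _ = k := card_range k

/-- the numbers of the ups and of the downs differ by at most `k` -/
theorem updown_le (v : ℕ → Prop) [DecidablePred v] (k y : ℕ) :
    ((range y).filter fun n => ¬ v n ∧ v (n + k)).card ≤
      ((range y).filter fun n => v n ∧ ¬ v (n + k)).card + k ∧
    ((range y).filter fun n => v n ∧ ¬ v (n + k)).card ≤
      ((range y).filter fun n => ¬ v n ∧ v (n + k)).card + k := by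
  have h1 := updown v k y
  obtain ⟨h2, h3, h4⟩ := range_le v k y
  omega

/-- the number of the changes -/
theorem changes (v : ℕ → Prop) [DecidablePred v] (k y : ℕ) :
    ((range y).filter fun n => ¬ (v n ↔ v (n + k))).card =
      ((range y).filter fun n => ¬ v n ∧ v (n + k)).card +
      ((range y).filter fun n => v n ∧ ¬ v (n + k)).card := by
  simp only [card_filter]
  rw [← sum_add_distrib]
  refine sum_congr rfl fun n _ => ?_
  by_cases h1 : v n <;> by_cases h2 : v (n + k) <;> simp [h1, h2]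

/-- the coefficients of a pattern, extended by 0 -/
def ext {L : ℕ} (c : ℕ → Fin (L + 1) → ZMod 2) (n j : ℕ) : ZMod 2 :=
  if h : j < L + 1 then c n ⟨j, h⟩ else 0

theorem ext_fin {L : ℕ} (c : ℕ → Fin (L + 1) → ZMod 2) (n : ℕ) (i : Fin (L + 1)) :
    ext c n i = c n i := by
  unfold ext
  rw [dif_pos i.2]

/-- the coefficients of the sum of a pattern and its translate -/
def cc {L : ℕ} (c : ℕ → Fin (L + 1) → ZMod 2) (k n : ℕ) (j : Fin (L + k + 1)) : ZMod 2 :=
  ext c n j + if k ≤ (j : ℕ) then ext c (n + k) (j - k) else 0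

theorem sum_cc {L : ℕ} (c : ℕ → Fin (L + 1) → ZMod 2) (k n : ℕ) (p : ℕ → ZMod 2) :
    ∑ j : Fin (L + k + 1), cc c k n j * p (n + j) =
      ∑ i : Fin (L + 1), c n i * p (n + i) + ∑ i : Fin (L + 1), c (n + k) i * p (n + k + i) := by
  have e1 : ∑ j : Fin (L + k + 1), cc c k n j * p (n + j) = ∑ j ∈ range (L + k + 1),
      (ext c n j + if k ≤ j then ext c (n + k) (j - k) else 0) * p (n + j) := by
    rw [Finset.sum_range]
    rfl
  have e2 : ∑ i : Fin (L + 1), c n i * p (n + i) = ∑ j ∈ range (L + 1), ext c n j * p (n + j) := by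
    rw [Finset.sum_range]
    exact sum_congr rfl fun i _ => by rw [ext_fin]
  have e3 : ∑ i : Fin (L + 1), c (n + k) i * p (n + k + i) =
      ∑ j ∈ range (L + 1), ext c (n + k) j * p (n + k + j) := by
    rw [Finset.sum_range]
    exact sum_congr rfl fun i _ => by rw [ext_fin]
  rw [e1, e2, e3]
  simp only [add_mul]
  rw [sum_add_distrib]
  congr 1
  · rw [show L + k + 1 = (L + 1) + k by ring, sum_range_add]
    rw [add_eq_left]
    refine sum_eq_zero fun j _ => ?_
    unfold ext
    rw [dif_neg (by omega), zero_mul]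
  · rw [show L + k + 1 = k + (L + 1) by ring, sum_range_add]
    rw [sum_eq_zero (s := range k) (fun j hj => by
      rw [mem_range] at hj
      rw [if_neg (by omega), zero_mul]), zero_add]
    refine sum_congr rfl fun j _ => ?_
    rw [if_pos (by omega), show k + j - k = j by omega, show n + (k + j) = n + k + j by ring]

theorem per_mul {L M : ℕ} (c : ℕ → Fin (L + 1) → ZMod 2) (hper : ∀ n i, c (n + M) i = c n i)
    (n m : ℕ) (i : Fin (L + 1)) : c (n + M * m) i = c n i := by
  induction m with
  | zero => rfl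
  | succ m ih => rw [Nat.mul_succ, ← Nat.add_assoc, hper, ih]

theorem cc_per {L M : ℕ} (c : ℕ → Fin (L + 1) → ZMod 2) (hper : ∀ n i, c (n + M) i = c n i)
    (k : ℕ) : ∀ n j, cc c k (n + M) j = cc c k n j := by
  intro n j
  have h : ∀ n j, ext c (n + M) j = ext c n j := by
    intro n j
    unfold ext
    split_ifs with h
    · exact hper _ _
    · rfl
  unfold cc
  rw [h, show n + M + k = (n + k) + M by ring, h]

theorem cc_ne {L M : ℕ} (hM : 0 < M) (c : ℕ → Fin (L + 1) → ZMod 2)
    (hper : ∀ n i, c (n + M) i = c n i) (hc : ∃ n i, c n i ≠ 0) (k : ℕ) (hk : 0 < k) :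
    ∃ n j, cc c k n j ≠ 0 := by
  classical
  obtain ⟨n0, i0, hn0⟩ := hc
  set T : Finset (Fin (L + 1)) := univ.filter fun i => ∃ n, c n i ≠ 0 with hT
  have hTn : T.Nonempty := ⟨i0, by rw [hT, mem_filter]; exact ⟨mem_univ _, n0, hn0⟩⟩
  obtain ⟨i1, hi1, hmax⟩ := T.exists_max_image (fun i => (i : ℕ)) hTn
  rw [hT, mem_filter] at hi1
  obtain ⟨-, n1, hn1⟩ := hi1
  have hz : ∀ n j, (i1 : ℕ) < j → ext c n j = 0 := by
    intro n j hj
    unfold ext
    split_ifs with h
    · by_contra hne
      have h2 := hmax ⟨j, h⟩ (by rw [hT, mem_filter]; exact ⟨mem_univ _, n, hne⟩)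
      simp only at h2
      omega
    · rfl
  have hi := i1.2
  have hkM : k ≤ M * k := Nat.le_mul_of_pos_left k hM
  refine ⟨n1 + M * k - k, ⟨(i1 : ℕ) + k, by omega⟩, ?_⟩
  unfold cc
  simp only
  rw [hz _ _ (by omega), zero_add, if_pos (by omega), Nat.add_sub_cancel,
    show n1 + M * k - k + k = n1 + M * k by omega, ext_fin, per_mul c hper]
  exact hn1

end Dist

end Pool.Agent.NH21.AU
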