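import Pool.Agent.NH21.AU.Low

/-!
# Parity of the partition function against automatic sequences: the counting theorem
-/

set_option autoImplicit false

namespace Pool.Agent.NH21.AU

open PowerSeries Finset
open Pool.Agent.H397R2.PP Pool.Agent.H397R2.PP.TH Pool.Agent.H307R2.OP Pool.Agent.R836.PP

namespace Fin0

/-- the generating function of the partitions modulo 2 -/
noncomputable def P : (ZMod 2)⟦X⟧ :=
  PowerSeries.mk fun n => (Fintype.card (Nat.Partition n) : ZMod 2)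

theorem rel_mul (J E : ℕ) (hJ : J < E) (b : ℕ → Polynomial (ZMod 2)) :
    rel J b P * pentagonalSeries (ZMod 2) ^ (4 ^ E) = Low.GG J E b := by
  unfold rel Low.GG
  rw [sum_mul]
  refine sum_congr rfl fun i hi => ?_
  rw [mem_range] at hi
  rw [mul_assoc]
  congr 1
  apply pow_eq (4 ^ i) (4 ^ E - 4 ^ i) (4 ^ E)
  have : 4 ^ i ≤ 4 ^ E := Nat.pow_le_pow_right (by norm_num) (by omega)
  omega

theorem pat_zero (Φ : (ZMod 2)⟦X⟧) (n : ℕ) :
    pat (L := 0) (fun _ => 1) Φ n = coeff n Φ := by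
  unfold pat
  simp

open Classical in
/-- many nonzero coefficients of `rel J b P` -/
theorem low_rel (hC : S_CRT) (J : ℕ) (b : ℕ → Polynomial (ZMod 2)) (hb : b 0 ≠ 0) (K : ℕ) :
    ∃ δ : ℝ, 0 < δ ∧ ∃ X0 : ℕ, ∀ x : ℕ, X0 ≤ x →
      δ * Real.sqrt x / wK K x ≤ (nzc (rel J b P) x : ℝ) := by
  obtain ⟨E, hJE, δ, hδ, X0, hX0⟩ := t_LOW hC J b hb K
  have h4 : (4 : ℕ) ^ E = 2 ^ (2 * E) := by rw [pow_mul]; norm_num
  have hm : 0 < 2 ^ (2 * E) := by positivity
  set Sp : ℕ → Prop := Sx (2 ^ (2 * E)) isPent with hSp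
  have hE : pentagonalSeries (ZMod 2) ^ (4 ^ E) = ind Sp := by
    rw [h4, pent_eq, pow_Sx]
  have hE' : ∀ n, coeff n (ind Sp) = if Sp n then 1 else 0 := by
    intro n
    by_cases h : Sp n
    · rw [if_pos h, (coeff_Sx _ _ n).1 h]
    · rw [if_neg h, (coeff_Sx _ _ n).2 h]
  have hFE : rel J b P * ind Sp = Low.GG J E b := by
    rw [← hE]
    exact rel_mul J E hJE b
  have htr : ∀ x, (good (L := 0) (fun _ => 1) Sp (Low.GG J E b) 1 1 0 x).card ≤
      ((vals (L := 0) (fun _ => 1) (rel J b P) 1 1 0 x).card + 0) * (cntF Sp (x + 0)).card :=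
    fun x => transfer (L := 0) (fun _ => 1) Sp (rel J b P) (ind Sp) (Low.GG J E b) hE' hFE 1
      (fun n _ => one_dvd n) 1 0 x
  obtain ⟨Xw, hXw⟩ := (wt_wK K).pos
  obtain ⟨X3, hX3⟩ := step_div 0 5 (by norm_num) (fun X => (cntF Sp X).card)
    (cnt_bound isPent _ 24 hm (by norm_num) le_rfl pent_iff)
    (fun x => (good (L := 0) (fun _ => 1) Sp (Low.GG J E b) 1 1 0 x).card)
    (fun x => (vals (L := 0) (fun _ => 1) (rel J b P) 1 1 0 x).card) htr δ hδ (wK K)
    ⟨Xw, fun x hx => ⟨(hXw x hx).1, by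
      have h0 : 6 * 5 * ((0 : ℕ) : ℝ) / δ * wK K x = 0 := by push_cast; ring
      rw [h0]
      exact Real.sqrt_nonneg _⟩⟩ X0 (fun x hx => by
      refine (hX0 x hx).trans ?_
      have h1 : ((range (x + 1)).filter fun n => coeff n (Low.GG J E b) = 1) ⊆
          good (L := 0) (fun _ => 1) Sp (Low.GG J E b) 1 1 0 x := by
        intro n hn
        unfold good
        rw [mem_filter] at hn ⊢
        refine ⟨hn.1, by omega, ?_⟩
        rw [pat_zero, hn.2]
        have h2 : (1 : ZMod 2) + 1 = 0 := by decide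
        rw [h2, zero_mul]
        decide
      exact_mod_cast card_le_card h1)
  refine ⟨δ / (6 * 5), by positivity, X3, fun x hx => (hX3 x hx).trans ?_⟩
  have h5 : (vals (L := 0) (fun _ => 1) (rel J b P) 1 1 0 x).card ≤ nzc (rel J b P) x := by
    unfold nzc
    apply card_le_card
    intro n hn
    unfold vals at hn
    rw [mem_filter, pat_zero] at hn
    rw [mem_filter]
    refine ⟨hn.1, ?_⟩
    rw [hn.2.2]
    decide
  exact_mod_cast h5

/-- the reversed polynomial of a pattern -/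
noncomputable def CP {L : ℕ} (c : Fin (L + 1) → ZMod 2) : Polynomial (ZMod 2) :=
  ∑ i : Fin (L + 1), Polynomial.monomial (L - (i : ℕ)) (c i)

theorem coe_CP {L : ℕ} (c : Fin (L + 1) → ZMod 2) : (CP c : (ZMod 2)⟦X⟧) = CC c := by
  ext n
  rw [Polynomial.coeff_coe]
  unfold CP CC
  rw [Polynomial.finset_sum_coeff, map_sum]
  refine sum_congr rfl fun i _ => ?_
  rw [Polynomial.coeff_monomial, coeff_smul, coeff_X_pow, smul_eq_mul]
  by_cases h : L - (i : ℕ) = n
  · rw [if_pos h, if_pos h.symm, mul_one]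
  · rw [if_neg h, if_neg (Ne.symm h), mul_zero]

theorem CP_ne {L : ℕ} (c : Fin (L + 1) → ZMod 2) (hc : c ≠ 0) : CP c ≠ 0 := by
  intro h
  apply hc
  funext i
  have h1 : (CP c).coeff (L - (i : ℕ)) = 0 := by rw [h, Polynomial.coeff_zero]
  unfold CP at h1
  rw [Polynomial.finset_sum_coeff, sum_eq_single i] at h1
  · rw [Polynomial.coeff_monomial, if_pos rfl] at h1
    exact h1
  · intro j _ hj
    rw [Polynomial.coeff_monomial, if_neg]
    intro h2
    apply hj
    have h3 := j.2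
    have h4 := i.2
    exact Fin.ext (by omega)
  · intro h2
    exact absurd (mem_univ _) h2

open Classical in
theorem main (hD : S_DEP) (hR : S_ROOT) (hC : S_CRT) (hM : S_MUL) (hB : S_COMB)
    (u : ℕ → ZMod 2) (hu : Aut u) {L : ℕ} (c : Fin (L + 1) → ZMod 2) (hc : c ≠ 0) (K : ℕ) :
    ∃ X0 : ℕ, ∀ x : ℕ, X0 ≤ x → Real.sqrt x * (Real.log (Real.log x)) ^ K / Real.log x ≤
      (((range (x + 1)).filter fun n =>
        ∑ i : Fin (L + 1), c i * (Fintype.card (Nat.Partition (n + i)) : ZMod 2) ≠ u n).card : ℝ) := by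
  obtain ⟨J1, a1, h1, h2⟩ := hD u hu
  obtain ⟨J, a', h3, h4⟩ := hR _ J1 a1 h1 h2
  obtain ⟨a, b, h5, h6⟩ := hB J a' (PowerSeries.mk u) P (CP c) L (CP_ne c hc) h3 h4
  obtain ⟨D, hDx⟩ := hM J a
  set R : (ZMod 2)⟦X⟧ := (CP c : (ZMod 2)⟦X⟧) * P + PowerSeries.X ^ L * PowerSeries.mk u with hRdef
  have hcoef : ∀ n, coeff (n + L) R =
      ∑ i : Fin (L + 1), c i * (Fintype.card (Nat.Partition (n + i)) : ZMod 2) + u n := by
    intro n
    rw [hRdef, map_add, coe_CP, coeff_CC, coeff_X_pow_mul, coeff_mk]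
    unfold pat P
    simp only [coeff_mk]
  set V : ℕ → Finset ℕ := fun x => (range (x + 1)).filter fun n =>
    ∑ i : Fin (L + 1), c i * (Fintype.card (Nat.Partition (n + i)) : ZMod 2) ≠ u n with hV
  have hnz : ∀ x, nzc R x ≤ (V x).card + L := by
    intro x
    unfold nzc
    have hsub : (range (x + 1)).filter (fun n => coeff n R ≠ 0) ⊆
        (V x).image (fun n => n + L) ∪ range L := by
      intro m hm
      rw [mem_filter, mem_range] at hm
      rw [mem_union, mem_image, mem_range]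
      by_cases hmL : m < L
      · exact Or.inr hmL
      · left
        obtain ⟨n, rfl⟩ : ∃ n, m = n + L := ⟨m - L, by omega⟩
        refine ⟨n, ?_, rfl⟩
        rw [hV]
        simp only
        rw [mem_filter, mem_range]
        refine ⟨by omega, fun h => hm.2 ?_⟩
        rw [hcoef, h]
        exact CharTwo.add_self_eq_zero _
    calc _ ≤ _ := card_le_card hsub
      _ ≤ _ := card_union_le _ _
      _ ≤ _ := by
        rw [card_range]
        exact Nat.add_le_add_right card_image_le L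
  obtain ⟨δ, hδ, X0, hX0⟩ := low_rel hC J b h5 (K + 1)
  obtain ⟨X1, hX1⟩ := ev_loglog (max 1 (2 * ((D : ℝ) + 1) / δ))
  obtain ⟨X2, hX2⟩ := (wt_wK (K + 1)).small (2 * ((D : ℝ) + 1) * L / δ + 1) (by positivity)
  obtain ⟨X3, hX3⟩ := (wt_wK (K + 1)).pos
  refine ⟨max (max X0 X1) (max X2 X3), fun x hx => ?_⟩
  simp only [max_le_iff] at hx
  obtain ⟨⟨hx0, hx1⟩, ⟨hx2, hx3⟩⟩ := hx
  have g1 := hX0 x hx0
  have g2 := hX1 x hx1
  rw [max_le_iff] at g2
  have g3 := log_pos_of (x := x) (by linarith [g2.1])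
  have g4 := hX2 x hx2
  have w1 := (hX3 x hx3).1
  have hD0 : (0 : ℝ) < (D : ℝ) + 1 := by positivity
  have g5 : (nzc (rel J b P) x : ℝ) ≤ ((D : ℝ) + 1) * (((V x).card : ℝ) + L) := by
    have e1 : nzc (rel J b P) x ≤ (D + 1) * ((V x).card + L) := by
      rw [← h6]
      calc nzc (rel J a R) x ≤ D * nzc R x := hDx R x
        _ ≤ (D + 1) * ((V x).card + L) := Nat.mul_le_mul (Nat.le_succ D) (hnz x)
    exact_mod_cast e1
  show Real.sqrt x * (Real.log (Real.log x)) ^ K / Real.log x ≤ ((V x).card : ℝ)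
  set w := wK (K + 1) x with hw
  -- `L` is small
  have g6 : 2 * (((D : ℝ) + 1) * L) ≤ δ * Real.sqrt x / w := by
    rw [le_div_iff₀ w1]
    have e1 : (2 * ((D : ℝ) + 1) * L / δ) * w ≤ Real.sqrt x := by nlinarith
    have e2 : 2 * (((D : ℝ) + 1) * L) * w = δ * ((2 * ((D : ℝ) + 1) * L / δ) * w) := by
      field_simp
    rw [e2]
    exact mul_le_mul_of_nonneg_left e1 hδ.le
  have g7 : δ * Real.sqrt x / w / 2 ≤ ((D : ℝ) + 1) * (V x).card := by
    have e1 : δ * Real.sqrt x / w ≤ ((D : ℝ) + 1) * (((V x).card : ℝ) + L) := g1.trans g5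
    have e2 : ((D : ℝ) + 1) * (((V x).card : ℝ) + L) =
      ((D : ℝ) + 1) * (V x).card + ((D : ℝ) + 1) * L := by ring
    linarith
  have g8 : δ * Real.sqrt x / w = (Real.sqrt x * (Real.log (Real.log x)) ^ K / Real.log x) *
      (δ * Real.log (Real.log x)) := by
    rw [hw]
    unfold wK
    rw [pow_succ]
    field_simp
  have g9 : 2 * ((D : ℝ) + 1) ≤ δ * Real.log (Real.log x) := by
    have := g2.2
    rw [div_le_iff₀ hδ] at this
    linarith
  set Z := Real.sqrt x * (Real.log (Real.log x)) ^ K / Real.log x with hZ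
  have hZ0 : 0 ≤ Z := by
    have : 0 < Real.log (Real.log x) := by linarith [g2.1]
    rw [hZ]
    positivity
  have g10 : Z * (2 * ((D : ℝ) + 1)) ≤ δ * Real.sqrt x / w := by
    rw [g8]
    exact mul_le_mul_of_nonneg_left g9 hZ0
  have g11 : ((D : ℝ) + 1) * Z ≤ ((D : ℝ) + 1) * (V x).card := by linarith
  exact le_of_mul_le_mul_left g11 hD0

end Fin0

end Pool.Agent.NH21.AU
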