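import Pool.Agent.NH21.AU.Stm

/-!
# Patterns with periodic coefficients against automatic sequences: statements of the parts
-/

set_option autoImplicit false

namespace Pool.Agent.NH21.AU

open Polynomial Finset

/-- the terms of a series with exponents in the class of `r` modulo `M` -/
noncomputable def cls (M r : ℕ) (Φ : PowerSeries (ZMod 2)) : PowerSeries (ZMod 2) :=
  PowerSeries.mk fun n => if n % M = r % M then PowerSeries.coeff n Φ else 0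

/-- AV-1: the residue class of `S_CRT` with a prescribed power of 2 instead of 8 -/
def S_CRT2 : Prop := ∀ (H t μ : ℕ), μ % 2 = 1 → ∀ hs : Finset ℤ, (0 : ℤ) ∉ hs →
  ∃ Q a : ℕ, 0 < Q ∧ 2 ^ t ∣ Q ∧ a.Coprime Q ∧ a % 2 ^ t = μ % 2 ^ t ∧
    ∀ z : ℕ, z % Q = a % Q → ∀ h ∈ hs, ∃ R : Finset ℕ, R.card = H ∧ ∀ r ∈ R, r.Prime ∧ r % 8 = 3 ∧
      (r : ℤ) ∣ z + h ∧ ¬ ((r : ℤ) ^ 2 ∣ z + h)

/-- AV-2: change of the relation -/
def S_COMB2 : Prop := ∀ (J L M : ℕ) (a' : ℕ → (ZMod 2)[X]) (U P : PowerSeries (ZMod 2))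
  (B : ℕ → (ZMod 2)[X]), a' 0 ≠ 0 → rel J a' U = 0 →
  ∃ a : ℕ → (ZMod 2)[X], a 0 ≠ 0 ∧
    rel J a (∑ r ∈ range M, (B r : PowerSeries (ZMod 2)) * cls M r P + PowerSeries.X ^ L * U) =
      ∑ r ∈ range M, rel J (fun i => a i * B r ^ (4 ^ i)) (cls M r P)

/-- AV-3: powers of the parts of `P`, multiplied by a power of `F = 1 / P` -/
def S_CLS : Prop := (∀ (b r i E : ℕ) (P F : PowerSeries (ZMod 2)), i ≤ E → 2 ^ b ∣ 4 ^ (E - i) → P * F = 1 →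
    cls (2 ^ b) r P ^ (4 ^ i) * F ^ (4 ^ E) = cls (2 ^ b) r (F ^ (4 ^ (E - i) - 1)) ^ (4 ^ i)) ∧
  (∀ (M r i n : ℕ) (G : PowerSeries (ZMod 2)), PowerSeries.coeff n (cls M r G ^ (4 ^ i)) =
    if 4 ^ i ∣ n ∧ (n / 4 ^ i) % M = r % M then PowerSeries.coeff (n / 4 ^ i) G else 0)

/-- AV-4: the series of a pattern with periodic coefficients -/
def S_PAT : Prop := ∀ (L M : ℕ), 0 < M → ∀ c : ℕ → Fin (L + 1) → ZMod 2,
  (∀ n i, c (n + M) i = c n i) → (∃ n i, c n i ≠ 0) →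
  ∃ B : ℕ → (ZMod 2)[X], (∃ r < M, B r ≠ 0) ∧ ∀ (P : PowerSeries (ZMod 2)) (n : ℕ),
    PowerSeries.coeff (n + L) (∑ r ∈ range M, (B r : PowerSeries (ZMod 2)) * cls M r P) =
      ∑ i : Fin (L + 1), c n i * PowerSeries.coeff (n + i) P

end Pool.Agent.NH21.AU
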