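import Pool.Agent.NH21.AU.Low
import Pool.Agent.NH21.AU.Stm2

/-!
# Many nonzero coefficients of `∑ b i r * (the part r mod M of f ^ (4 ^ (E - i) - 1)) ^ (4 ^ i)`
-/

set_option autoImplicit false

namespace Pool.Agent.NH21.AU

open PowerSeries Finset
open Pool.Agent.H397R2.PP Pool.Agent.H397R2.PP.TH Pool.Agent.H307R2.OP Pool.Agent.R836.PP

namespace Low2

open Low

/-- the second part of `S_CLS` -/
def CO : Prop := ∀ (M r i n : ℕ) (G : PowerSeries (ZMod 2)), PowerSeries.coeff n (cls M r G ^ (4 ^ i)) =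
    if 4 ^ i ∣ n ∧ (n / 4 ^ i) % M = r % M then PowerSeries.coeff (n / 4 ^ i) G else 0

/-- the series `∑ b i r * (cls M r (f ^ (4 ^ (E - i) - 1))) ^ (4 ^ i)` -/
noncomputable def G2 (J E M : ℕ) (b : ℕ → ℕ → Polynomial (ZMod 2)) : (ZMod 2)⟦X⟧ :=
  ∑ r ∈ range M, ∑ i ∈ range (J + 1), (b i r : (ZMod 2)⟦X⟧) *
    cls M r (pentagonalSeries (ZMod 2) ^ (4 ^ (E - i) - 1)) ^ (4 ^ i)

theorem coeff_f2 (hCO : CO) (M r E i : ℕ) (n : ℕ) :
    coeff n (cls M r (pentagonalSeries (ZMod 2) ^ (4 ^ (E - i) - 1)) ^ (4 ^ i)) =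
      if 4 ^ i ∣ n ∧ (n / 4 ^ i) % M = r % M then
        coeff (8 * (n / 4 ^ i) + mu (E - i)) ((Db : S) ^ mu (E - i)) else 0 := by
  have h1 : 4 ^ (E - i) - 1 = 3 * mu (E - i) := by
    have h2 := mu_spec (E - i)
    omega
  rw [hCO, h1, coeff_Db_pow]

/-- the value of the sum at one exponent -/
theorem coeff_G2 (hCO : CO) (J E H M : ℕ) (hJ : J < E) (b : ℕ → ℕ → Polynomial (ZMod 2)) (r0 j0 : ℕ)
    (hr0 : r0 < M) (hj0 : (b 0 r0).coeff j0 = 1)
    (hV : ∀ i ≤ J, Vanish H ((Db : S) ^ mu (E - i))) (n z : ℕ) (hn : j0 ≤ n)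
    (hz : z = 8 * (n - j0) + mu E) (hnr : (n - j0) % M = r0 % M)
    (hr : ∀ i ≤ J, ∀ r < M, ∀ j, (b i r).coeff j ≠ 0 → (i ≠ 0 ∨ j ≠ j0) → ∃ R : Finset ℕ, R.card = H ∧
      ∀ r ∈ R, r.Prime ∧ r % 8 = 3 ∧ (r : ℤ) ∣ z + (8 * ((j0 : ℤ) - j) - mu i) ∧
        ¬ ((r : ℤ) ^ 2 ∣ z + (8 * ((j0 : ℤ) - j) - mu i))) :
    coeff n (G2 J E M b) = coeff z ((Db : S) ^ mu E) := by
  have hterm : ∀ i ≤ J, ∀ r < M, ∀ j ≤ n, (b i r).coeff j ≠ 0 → (i ≠ 0 ∨ j ≠ j0 ∨ r ≠ r0) →
      coeff (n - j) (cls M r (pentagonalSeries (ZMod 2) ^ (4 ^ (E - i) - 1)) ^ (4 ^ i)) = 0 := by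
    intro i hi s hs j hj hb hne
    rw [coeff_f2 hCO]
    split_ifs with hd
    · obtain ⟨hd, hcl⟩ := hd
      by_cases hspec : i = 0 ∧ j = j0
      · exfalso
        obtain ⟨rfl, rfl⟩ := hspec
        rw [pow_zero, Nat.div_one, hnr, Nat.mod_eq_of_lt hr0, Nat.mod_eq_of_lt hs] at hcl
        rcases hne with h | h | h
        · exact h rfl
        · exact h rfl
        · exact h hcl.symm
      have hne' : i ≠ 0 ∨ j ≠ j0 := by
        by_contra hcon
        push Not at hcon
        exact hspec hcon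
      obtain ⟨R, hR, hRr⟩ := hr i hi s hs j hb hne'
      refine hV i hi _ R hR fun r hrR => ?_
      obtain ⟨r1, r2, r3, r4⟩ := hRr r hrR
      obtain ⟨q, hq⟩ := hd
      have h4 : 0 < 4 ^ i := by positivity
      have hq' : (n - j) / 4 ^ i = q := by rw [hq, Nat.mul_div_cancel_left _ h4]
      rw [hq']
      set N : ℕ := 8 * q + mu (E - i) with hN
      have e1 : ((4 ^ i * N : ℕ) : ℤ) = z + (8 * ((j0 : ℤ) - j) - mu i) := by
        have a1 := mu_spec E
        have a2 := mu_spec i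
        have a3 := mu_spec (E - i)
        have a4 : 4 ^ E = 4 ^ (E - i) * 4 ^ i := by rw [← pow_add]; congr 1; omega
        have a5 : ((n - j : ℕ) : ℤ) = 4 ^ i * q := by rw [hq]; push_cast; ring
        have a6 : ((n - j : ℕ) : ℤ) = (n : ℤ) - j := by push_cast [hj]; ring
        have a7 : ((n - j0 : ℕ) : ℤ) = (n : ℤ) - j0 := by push_cast [hn]; ring
        have a8 : (3 : ℤ) * (4 ^ i * mu (E - i)) = 3 * mu E - 3 * mu i := by
          have b1 : (4 : ℤ) ^ E = 3 * mu E + 1 := by exact_mod_cast a1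
          have b2 : (4 : ℤ) ^ i = 3 * mu i + 1 := by exact_mod_cast a2
          have b3 : (4 : ℤ) ^ (E - i) = 3 * mu (E - i) + 1 := by exact_mod_cast a3
          have b4 : (4 : ℤ) ^ E = 4 ^ (E - i) * 4 ^ i := by exact_mod_cast a4
          have b5 : (3 : ℤ) * mu E + 1 = (3 * mu (E - i) + 1) * 4 ^ i := by rw [← b1, ← b3, b4]
          linear_combination -b5 - b2
        have a9 : (4 : ℤ) ^ i * mu (E - i) = mu E - mu i := by linarith
        have a10 : (z : ℤ) = 8 * ((n : ℤ) - j0) + mu E := by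
          rw [hz]
          push_cast
          rw [a7]
        rw [hN]
        push_cast
        rw [a10]
        have a11 : (4 : ℤ) ^ i * (8 * q + mu (E - i)) = 8 * (4 ^ i * q) + 4 ^ i * mu (E - i) := by
          ring
        rw [a11, a9, ← a5, a6]
        ring
      rw [← e1] at r3 r4
      have hco : Nat.Coprime r (4 ^ i) := by
        apply Nat.Coprime.pow_right
        rw [Nat.Prime.coprime_iff_not_dvd r1]
        intro h
        have h5 : r ≤ 4 := Nat.le_of_dvd (by norm_num) h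
        have h6 : r = 3 := by omega
        subst h6
        omega
      refine ⟨r1, r2, ?_, ?_⟩
      · have h5 : r ∣ 4 ^ i * N := by exact_mod_cast r3
        exact hco.dvd_of_dvd_mul_left h5
      · intro h5
        apply r4
        have h6 : r ^ 2 ∣ 4 ^ i * N := Dvd.dvd.mul_left h5 _
        exact_mod_cast h6
    · rfl
  unfold G2
  rw [map_sum, sum_eq_single r0]
  · rw [map_sum, sum_eq_single 0]
    · rw [coeff_mul_one (b 0 r0) _ n j0 hn (fun j hj hne hb => hterm 0 (Nat.zero_le _) r0 hr0 j hj hb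
        (Or.inr (Or.inl hne))), hj0, one_mul, coeff_f2 hCO, pow_zero, if_pos ⟨one_dvd _, by
          rw [Nat.div_one]; exact hnr⟩, Nat.div_one, Nat.sub_zero, hz]
    · intro i hi hi0
      rw [mem_range] at hi
      exact coeff_mul_zero _ _ _ fun j hj hb => hterm i (by omega) r0 hr0 j hj hb (Or.inl hi0)
    · intro h
      exact absurd (mem_range.2 (by omega)) h
  · intro s hs hsr
    rw [mem_range] at hs
    rw [map_sum]
    refine sum_eq_zero fun i hi => ?_
    rw [mem_range] at hi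
    exact coeff_mul_zero _ _ _ fun j hj hb => hterm i (by omega) s hs j hj hb
      (Or.inr (Or.inr hsr))
  · intro h
    exact absurd (mem_range.2 hr0) h

end Low2

open Low Low2

open Classical in
/-- **many nonzero coefficients** -/
theorem t_LOW2 (hC : S_CRT2) (hCO : CO) (J t : ℕ) (b : ℕ → ℕ → Polynomial (ZMod 2)) (r0 : ℕ)
    (hr0 : r0 < 2 ^ t) (hb : b 0 r0 ≠ 0) (K : ℕ) :
    ∃ E : ℕ, J < E ∧ (∀ i ≤ J, 2 ^ t ∣ 4 ^ (E - i)) ∧
      ∃ δ : ℝ, 0 < δ ∧ ∃ X0 : ℕ, ∀ x : ℕ, X0 ≤ x → δ * x / wK K x ≤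
      (((range (x + 1)).filter fun n => coeff n (G2 J E (2 ^ t) b) = 1).card : ℝ) := by
  set E : ℕ := J + K + t + 2 with hE
  have hdvd : ∀ i ≤ J, 2 ^ t ∣ 4 ^ (E - i) := by
    intro i hi
    have h1 : (4 : ℕ) ^ (E - i) = 2 ^ (2 * (E - i)) := by rw [pow_mul]; norm_num
    rw [h1]
    exact pow_dvd_pow 2 (by omega)
  set μ : ℕ := mu E with hμ
  have hμ1 : μ % 2 = 1 := mu_odd E (by omega)
  have hμs := mu_spec E
  have hcont : K + 1 ≤ cont ((μ - 1) / 2) := by
    apply le_cont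
    have h1 : 4 ^ E = 4 ^ (J + t) * (16 * 4 ^ K) := by
      rw [hE, show J + K + t + 2 = (J + t) + 2 + K by ring, pow_add, pow_add]
      ring
    have h2 : 1 ≤ 4 ^ (J + t) := Nat.one_le_pow _ _ (by norm_num)
    have h3 : 1 ≤ 4 ^ K := Nat.one_le_pow _ _ (by norm_num)
    have h4 : 16 * 4 ^ K ≤ 4 ^ E := by rw [h1]; exact Nat.le_mul_of_pos_left _ h2
    omega
  obtain ⟨j0, hj0⟩ : ∃ j, (b 0 r0).coeff j ≠ 0 := by
    by_contra hcon
    push Not at hcon
    exact hb (Polynomial.ext fun j => by rw [hcon j, Polynomial.coeff_zero])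
  have hj1 : (b 0 r0).coeff j0 = 1 := (zmod_two _).resolve_left hj0
  set H : ℕ := ∑ i ∈ range (J + 1), (cont ((mu (E - i) - 1) / 2) + 1) with hH
  have hV : ∀ i ≤ J, Vanish H ((Db : S) ^ mu (E - i)) := by
    intro i hi
    apply vanish_of (E - i) H (by omega)
    rw [hH]
    exact single_le_sum (f := fun i => cont ((mu (E - i) - 1) / 2) + 1) (fun _ _ => Nat.zero_le _)
      (mem_range.2 (by omega))
  -- the shifts
  set hs : Finset ℤ := ((range (J + 1)).biUnion fun i => (range (2 ^ t)).biUnion fun r =>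
    (b i r).support.image fun j : ℕ => (8 * ((j0 : ℤ) - j) - mu i)).erase 0 with hhs
  obtain ⟨Q, a, hQ, h8t, hco, hat, hR⟩ := hC H (t + 3) (8 * r0 + μ) (by omega) hs (notMem_erase _ _)
  have h8' : (8 : ℕ) ∣ 2 ^ (t + 3) := by
    rw [pow_add]
    exact Dvd.intro_left _ rfl
  have h8 : 8 ∣ Q := h8'.trans h8t
  have ha8 : a % 8 = μ % 8 := by
    have h1 : a ≡ 8 * r0 + μ [MOD 2 ^ (t + 3)] := hat
    have h2 : a ≡ 8 * r0 + μ [MOD 8] := h1.of_dvd h8'
    have h3 : a % 8 = (8 * r0 + μ) % 8 := h2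
    omega
  have hmany : Many (wK K) μ ((Db : S) ^ μ) := by
    have h2 : μ = 2 * ((μ - 1) / 2) + 1 := by omega
    rw [h2]
    exact many_Db _ K hcont
  obtain ⟨δ, hδ, X1, hX1⟩ := hmany Q a hQ h8 hco ha8
  set B : ℕ := μ + 1 with hB
  have hinj : ∀ x : ℕ, 2 * j0 ≤ x → (((Icc 1 x).filter
      (fun N => N % Q = a % Q ∧ coeff N ((Db : S) ^ μ) = 1)).card : ℕ) ≤
      ((range (x + 1)).filter fun n => coeff n (G2 J E (2 ^ t) b) = 1).card + B := by
    intro x hxj
    have hsub : (Icc 1 x).filter (fun N => N % Q = a % Q ∧ coeff N ((Db : S) ^ μ) = 1) ⊆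
        (((range (x + 1)).filter fun n => coeff n (G2 J E (2 ^ t) b) = 1).image
          fun n => 8 * (n - j0) + μ) ∪ range B := by
      intro p hp
      rw [mem_filter, mem_Icc] at hp
      obtain ⟨⟨hp1, hp2⟩, hp4, hp3⟩ := hp
      rw [mem_union, mem_range, mem_image]
      by_cases hpB : p < B
      · exact Or.inr hpB
      · left
        push Not at hpB
        have hp8 : p % 8 = μ % 8 := by
          have h1 : p ≡ a [MOD 8] := Nat.ModEq.of_dvd h8 hp4
          exact h1.trans ha8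
        obtain ⟨k, hk⟩ : ∃ k, p = 8 * k + μ := ⟨(p - μ) / 8, by omega⟩
        have hkr : k % 2 ^ t = r0 % 2 ^ t := by
          have h1 : p ≡ 8 * r0 + μ [MOD 2 ^ (t + 3)] :=
            (Nat.ModEq.of_dvd h8t hp4).trans hat
          rw [hk] at h1
          have h2 : 8 * k ≡ 8 * r0 [MOD 8 * 2 ^ t] := by
            have h3 : (2 : ℕ) ^ (t + 3) = 8 * 2 ^ t := by rw [pow_add]; ring
            rw [h3] at h1
            exact Nat.ModEq.add_right_cancel' μ h1
          exact Nat.ModEq.mul_left_cancel' (by norm_num) h2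
        refine ⟨k + j0, ?_, by rw [Nat.add_sub_cancel]; exact hk.symm⟩
        rw [mem_filter, mem_range]
        refine ⟨by omega, ?_⟩
        rw [coeff_G2 hCO J E H (2 ^ t) (by omega) b r0 j0 hr0 hj1 hV (k + j0) p (by omega)
          (by rw [Nat.add_sub_cancel]; exact hk) (by rw [Nat.add_sub_cancel]; exact hkr)]
        · exact hp3
        · intro i hi r hrM j hbj hne
          apply hR p hp4
          rw [hhs, mem_erase, mem_biUnion]
          constructor
          · intro h0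
            rcases Nat.eq_zero_or_pos i with hi0 | hi0
            · subst hi0
              have hm0 : mu 0 = 0 := by
                have := mu_spec 0
                rw [pow_zero] at this
                omega
              rw [hm0] at h0
              rcases hne with hne | hne
              · exact hne rfl
              · apply hne
                push_cast at h0
                omega
            · have := mu_odd i hi0
              omega
          · refine ⟨i, mem_range.2 (by omega), mem_biUnion.2 ⟨r, mem_range.2 hrM, mem_image.2 ⟨j, by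
              rw [Polynomial.mem_support_iff]; exact hbj, rfl⟩⟩⟩
    calc _ ≤ _ := card_le_card hsub
      _ ≤ _ := card_union_le _ _
      _ ≤ _ := by
        rw [card_range]
        exact Nat.add_le_add_right card_image_le B
  have hw := wt_wK K
  obtain ⟨X2, hX2⟩ := exists_nat_gt ((2 * (B : ℝ) / δ) ^ 2)
  obtain ⟨X3, hX3⟩ := hw.pos
  obtain ⟨X4, hX4⟩ := hw.small 1 one_pos
  refine ⟨E, by omega, hdvd, δ / 2, by positivity, max (max X1 X2) (max (max X3 X4) (2 * j0 + 3)),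
    fun x hx => ?_⟩
  simp only [max_le_iff] at hx
  obtain ⟨⟨hx1, hx2⟩, ⟨hx3, hx4⟩, hx5⟩ := hx
  have hxr : (0 : ℝ) < x := by
    have : 0 < x := by omega
    exact_mod_cast this
  obtain ⟨w1, -⟩ := hX3 x hx3
  have w4 := hX4 x hx4
  rw [one_mul] at w4
  have e1 := hX1 x hx1
  have e2 : (((Icc 1 x).filter (fun N => N % Q = a % Q ∧ coeff N ((Db : S) ^ μ) = 1)).card : ℝ) ≤
      (((range (x + 1)).filter fun n => coeff n (G2 J E (2 ^ t) b) = 1).card : ℝ) + B := by
    exact_mod_cast hinj x (by omega)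
  have e5 : 2 * (B : ℝ) ≤ δ * Real.sqrt x := by
    have h3 : (2 * (B : ℝ) / δ) ^ 2 ≤ x := hX2.le.trans (by exact_mod_cast hx2)
    have h4 : 2 * (B : ℝ) / δ ≤ Real.sqrt x := Real.le_sqrt_of_sq_le h3
    rw [div_le_iff₀ hδ] at h4
    linarith
  have e6 : Real.sqrt x ≤ x / wK K x := by
    rw [le_div_iff₀ w1]
    have h6 : Real.sqrt (x : ℝ) * Real.sqrt x = x := Real.mul_self_sqrt hxr.le
    nlinarith [Real.sqrt_nonneg (x : ℝ)]
  have e8 : δ / 2 * x / wK K x = δ * (x / wK K x) / 2 := by ring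
  have e9 : δ * x / wK K x = δ * (x / wK K x) := by ring
  rw [e8]
  rw [e9] at e1
  have e10 : δ * Real.sqrt x ≤ δ * (x / wK K x) := mul_le_mul_of_nonneg_left e6 hδ.le
  linarith

end Pool.Agent.NH21.AU
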