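import Pool.Agent.NH21.AU.Fin
import Pool.Agent.NH21.AU.Low2

/-!
# Patterns with periodic coefficients against automatic sequences: the counting theorem
-/

set_option autoImplicit false

namespace Pool.Agent.NH21.AU

open PowerSeries Finset
open Pool.Agent.H397R2.PP Pool.Agent.H397R2.PP.TH Pool.Agent.H307R2.OP Pool.Agent.R836.PP

namespace Fin2

open Fin0

/-- the series of the nonzero coefficients -/
noncomputable def W2 (J M : ℕ) (b : ℕ → ℕ → Polynomial (ZMod 2)) : (ZMod 2)⟦X⟧ :=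
  ∑ r ∈ range M, rel J (fun i => b i r) (cls M r P)

theorem P_mul : P * pentagonalSeries (ZMod 2) = 1 := by
  have h := pow_eq 1 0 1 rfl
  rw [pow_one, pow_one, pow_zero] at h
  exact h

theorem rel_mul2 (hCL : S_CLS) (J E t : ℕ) (hJ : J < E) (hd : ∀ i ≤ J, 2 ^ t ∣ 4 ^ (E - i))
    (b : ℕ → ℕ → Polynomial (ZMod 2)) :
    W2 J (2 ^ t) b * pentagonalSeries (ZMod 2) ^ (4 ^ E) = Low2.G2 J E (2 ^ t) b := by
  unfold W2 rel Low2.G2
  rw [sum_mul]
  refine sum_congr rfl fun r _ => ?_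
  rw [sum_mul]
  refine sum_congr rfl fun i hi => ?_
  rw [mem_range] at hi
  rw [mul_assoc]
  congr 1
  exact hCL.1 t r i E P (pentagonalSeries (ZMod 2)) (by omega) (hd i (by omega)) P_mul

open Classical in
/-- many nonzero coefficients -/
theorem low_rel2 (hC : S_CRT2) (hCL : S_CLS) (J t : ℕ) (b : ℕ → ℕ → Polynomial (ZMod 2)) (r0 : ℕ)
    (hr0 : r0 < 2 ^ t) (hb : b 0 r0 ≠ 0) (K : ℕ) :
    ∃ δ : ℝ, 0 < δ ∧ ∃ X0 : ℕ, ∀ x : ℕ, X0 ≤ x →
      δ * Real.sqrt x / wK K x ≤ (nzc (W2 J (2 ^ t) b) x : ℝ) := by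
  obtain ⟨E, hJE, hd, δ, hδ, X0, hX0⟩ := t_LOW2 hC hCL.2 J t b r0 hr0 hb K
  have h4 : (4 : ℕ) ^ E = 2 ^ (2 * E) := by rw [pow_mul]; norm_num
  have hm : 0 < 2 ^ (2 * E) := by positivity
  set Sp : ℕ → Prop := Sx (2 ^ (2 * E)) isPent with hSp
  have hE : pentagonalSeries (ZMod 2) ^ (4 ^ E) = ind Sp := by
    rw [h4, pent_eq, pow_Sx]
  have hE' : ∀ n, coeff n (ind Sp) = if Sp n then 1 else 0 := by
    intro n
    by_cases h : Sp n
    · rw [if_pos h, (coeff_Sx _ _ n).1 h]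
    · rw [if_neg h, (coeff_Sx _ _ n).2 h]
  have hFE : W2 J (2 ^ t) b * ind Sp = Low2.G2 J E (2 ^ t) b := by
    rw [← hE]
    exact rel_mul2 hCL J E t hJE hd b
  have htr : ∀ x, (good (L := 0) (fun _ => 1) Sp (Low2.G2 J E (2 ^ t) b) 1 1 0 x).card ≤
      ((vals (L := 0) (fun _ => 1) (W2 J (2 ^ t) b) 1 1 0 x).card + 0) * (cntF Sp (x + 0)).card :=
    fun x => transfer (L := 0) (fun _ => 1) Sp (W2 J (2 ^ t) b) (ind Sp) (Low2.G2 J E (2 ^ t) b)
      hE' hFE 1 (fun n _ => one_dvd n) 1 0 x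
  obtain ⟨Xw, hXw⟩ := (wt_wK K).pos
  obtain ⟨X3, hX3⟩ := step_div 0 5 (by norm_num) (fun X => (cntF Sp X).card)
    (cnt_bound isPent _ 24 hm (by norm_num) le_rfl pent_iff)
    (fun x => (good (L := 0) (fun _ => 1) Sp (Low2.G2 J E (2 ^ t) b) 1 1 0 x).card)
    (fun x => (vals (L := 0) (fun _ => 1) (W2 J (2 ^ t) b) 1 1 0 x).card) htr δ hδ (wK K)
    ⟨Xw, fun x hx => ⟨(hXw x hx).1, by
      have h0 : 6 * 5 * ((0 : ℕ) : ℝ) / δ * wK K x = 0 := by push_cast; ring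
      rw [h0]
      exact Real.sqrt_nonneg _⟩⟩ X0 (fun x hx => by
      refine (hX0 x hx).trans ?_
      have h1 : ((range (x + 1)).filter fun n => coeff n (Low2.G2 J E (2 ^ t) b) = 1) ⊆
          good (L := 0) (fun _ => 1) Sp (Low2.G2 J E (2 ^ t) b) 1 1 0 x := by
        intro n hn
        unfold good
        rw [mem_filter] at hn ⊢
        refine ⟨hn.1, by omega, ?_⟩
        rw [pat_zero, hn.2]
        have h2 : (1 : ZMod 2) + 1 = 0 := by decide
        rw [h2, zero_mul]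
        decide
      exact_mod_cast card_le_card h1)
  refine ⟨δ / (6 * 5), by positivity, X3, fun x hx => (hX3 x hx).trans ?_⟩
  have h5 : (vals (L := 0) (fun _ => 1) (W2 J (2 ^ t) b) 1 1 0 x).card ≤ nzc (W2 J (2 ^ t) b) x := by
    unfold nzc
    apply card_le_card
    intro n hn
    unfold vals at hn
    rw [mem_filter, pat_zero] at hn
    rw [mem_filter]
    refine ⟨hn.1, ?_⟩
    rw [hn.2.2]
    decide
  exact_mod_cast h5

open Classical in
/-- **the counting theorem**, with an arbitrary constant factor `A` -/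
theorem main2 (hD : S_DEP) (hR : S_ROOT) (hC : S_CRT2) (hM : S_MUL) (hB : S_COMB2) (hCL : S_CLS)
    (hPA : S_PAT) (u : ℕ → ZMod 2) (hu : Aut u) (t L : ℕ) (c : ℕ → Fin (L + 1) → ZMod 2)
    (hper : ∀ n i, c (n + 2 ^ t) i = c n i) (hc : ∃ n i, c n i ≠ 0) (K : ℕ) (A : ℝ) (hA : 0 < A) :
    ∃ X0 : ℕ, ∀ x : ℕ, X0 ≤ x → A * (Real.sqrt x * (Real.log (Real.log x)) ^ K / Real.log x) ≤
      (((range (x + 1)).filter fun n =>
        ∑ i : Fin (L + 1), c n i * (Fintype.card (Nat.Partition (n + i)) : ZMod 2) ≠ u n).card : ℝ) := by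
  obtain ⟨J1, a1, h1, h2⟩ := hD u hu
  obtain ⟨J, a', h3, h4⟩ := hR _ J1 a1 h1 h2
  obtain ⟨B, ⟨r0, hr0, hBr⟩, hBc⟩ := hPA L (2 ^ t) (by positivity) c hper hc
  obtain ⟨a, h5, h6⟩ := hB J L (2 ^ t) a' (PowerSeries.mk u) P B h3 h4
  obtain ⟨D, hDx⟩ := hM J a
  set R : (ZMod 2)⟦X⟧ := ∑ r ∈ range (2 ^ t), (B r : (ZMod 2)⟦X⟧) * cls (2 ^ t) r P +
    PowerSeries.X ^ L * PowerSeries.mk u with hRdef
  have h6' : rel J a R = W2 J (2 ^ t) (fun i r => a i * B r ^ (4 ^ i)) := h6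
  have hb0 : (fun i r => a i * B r ^ (4 ^ i)) 0 r0 ≠ 0 := by
    show a 0 * B r0 ^ (4 ^ 0) ≠ 0
    rw [pow_zero, pow_one]
    exact mul_ne_zero h5 hBr
  have hcoef : ∀ n, coeff (n + L) R =
      ∑ i : Fin (L + 1), c n i * (Fintype.card (Nat.Partition (n + i)) : ZMod 2) + u n := by
    intro n
    rw [hRdef, map_add, hBc, coeff_X_pow_mul, coeff_mk]
    unfold P
    simp only [coeff_mk]
  set V : ℕ → Finset ℕ := fun x => (range (x + 1)).filter fun n =>
    ∑ i : Fin (L + 1), c n i * (Fintype.card (Nat.Partition (n + i)) : ZMod 2) ≠ u n with hV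
  have hnz : ∀ x, nzc R x ≤ (V x).card + L := by
    intro x
    unfold nzc
    have hsub : (range (x + 1)).filter (fun n => coeff n R ≠ 0) ⊆
        (V x).image (fun n => n + L) ∪ range L := by
      intro m hm
      rw [mem_filter, mem_range] at hm
      rw [mem_union, mem_image, mem_range]
      by_cases hmL : m < L
      · exact Or.inr hmL
      · left
        obtain ⟨n, rfl⟩ : ∃ n, m = n + L := ⟨m - L, by omega⟩
        refine ⟨n, ?_, rfl⟩
        rw [hV]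
        simp only
        rw [mem_filter, mem_range]
        refine ⟨by omega, fun h => hm.2 ?_⟩
        rw [hcoef, h]
        exact CharTwo.add_self_eq_zero _
    calc _ ≤ _ := card_le_card hsub
      _ ≤ _ := card_union_le _ _
      _ ≤ _ := by
        rw [card_range]
        exact Nat.add_le_add_right card_image_le L
  obtain ⟨δ, hδ, X0, hX0⟩ := low_rel2 hC hCL J t (fun i r => a i * B r ^ (4 ^ i)) r0 hr0 hb0 (K + 1)
  obtain ⟨X1, hX1⟩ := ev_loglog (max 1 (2 * A * ((D : ℝ) + 1) / δ))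
  obtain ⟨X2, hX2⟩ := (wt_wK (K + 1)).small (2 * ((D : ℝ) + 1) * L / δ + 1) (by positivity)
  obtain ⟨X3, hX3⟩ := (wt_wK (K + 1)).pos
  refine ⟨max (max X0 X1) (max X2 X3), fun x hx => ?_⟩
  simp only [max_le_iff] at hx
  obtain ⟨⟨hx0, hx1⟩, ⟨hx2, hx3⟩⟩ := hx
  have g1 := hX0 x hx0
  have g2 := hX1 x hx1
  rw [max_le_iff] at g2
  have g3 := log_pos_of (x := x) (by linarith [g2.1])
  have g4 := hX2 x hx2
  have w1 := (hX3 x hx3).1
  have hD0 : (0 : ℝ) < (D : ℝ) + 1 := by positivity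
  have g5 : (nzc (W2 J (2 ^ t) (fun i r => a i * B r ^ (4 ^ i))) x : ℝ) ≤
      ((D : ℝ) + 1) * (((V x).card : ℝ) + L) := by
    have e1 : nzc (W2 J (2 ^ t) (fun i r => a i * B r ^ (4 ^ i))) x ≤ (D + 1) * ((V x).card + L) := by
      rw [← h6']
      calc nzc (rel J a R) x ≤ D * nzc R x := hDx R x
        _ ≤ (D + 1) * ((V x).card + L) := Nat.mul_le_mul (Nat.le_succ D) (hnz x)
    exact_mod_cast e1
  show A * (Real.sqrt x * (Real.log (Real.log x)) ^ K / Real.log x) ≤ ((V x).card : ℝ)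
  set w := wK (K + 1) x with hw
  -- `L` is small
  have g6 : 2 * (((D : ℝ) + 1) * L) ≤ δ * Real.sqrt x / w := by
    rw [le_div_iff₀ w1]
    have e1 : (2 * ((D : ℝ) + 1) * L / δ) * w ≤ Real.sqrt x := by nlinarith
    have e2 : 2 * (((D : ℝ) + 1) * L) * w = δ * ((2 * ((D : ℝ) + 1) * L / δ) * w) := by
      field_simp
    rw [e2]
    exact mul_le_mul_of_nonneg_left e1 hδ.le
  have g7 : δ * Real.sqrt x / w / 2 ≤ ((D : ℝ) + 1) * (V x).card := by
    have e1 : δ * Real.sqrt x / w ≤ ((D : ℝ) + 1) * (((V x).card : ℝ) + L) := g1.trans g5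
    have e2 : ((D : ℝ) + 1) * (((V x).card : ℝ) + L) =
      ((D : ℝ) + 1) * (V x).card + ((D : ℝ) + 1) * L := by ring
    linarith
  have g8 : δ * Real.sqrt x / w = (Real.sqrt x * (Real.log (Real.log x)) ^ K / Real.log x) *
      (δ * Real.log (Real.log x)) := by
    rw [hw]
    unfold wK
    rw [pow_succ]
    field_simp
  have g9 : 2 * A * ((D : ℝ) + 1) ≤ δ * Real.log (Real.log x) := by
    have := g2.2
    rw [div_le_iff₀ hδ] at this
    linarith
  set Z := Real.sqrt x * (Real.log (Real.log x)) ^ K / Real.log x with hZ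
  have hZ0 : 0 ≤ Z := by
    have : 0 < Real.log (Real.log x) := by linarith [g2.1]
    rw [hZ]
    positivity
  have g10 : Z * (2 * A * ((D : ℝ) + 1)) ≤ δ * Real.sqrt x / w := by
    rw [g8]
    exact mul_le_mul_of_nonneg_left g9 hZ0
  have g11 : ((D : ℝ) + 1) * (A * Z) ≤ ((D : ℝ) + 1) * (V x).card := by linarith
  exact le_of_mul_le_mul_left g11 hD0

end Fin2

end Pool.Agent.NH21.AU
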