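import Pool.Agent.NH21.AU.Stm
import Pool.Agent.R836.PP.FinB

/-!
# Many nonzero coefficients of `∑ b i * f ^ (4 ^ E - 4 ^ i)`
-/

set_option autoImplicit false

namespace Pool.Agent.NH21.AU

open PowerSeries Finset
open Pool.Agent.H397R2.PP Pool.Agent.H397R2.PP.TH Pool.Agent.H307R2.OP Pool.Agent.R836.PP

namespace Low

/-- the exponents `(4 ^ k - 1) / 3` -/
def mu (k : ℕ) : ℕ := (4 ^ k - 1) / 3

theorem mu_spec (k : ℕ) : 4 ^ k = 3 * mu k + 1 := by
  have h : 4 ^ k % 3 = 1 := by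
    rw [Nat.pow_mod]
    norm_num
  have h1 : 1 ≤ 4 ^ k := Nat.one_le_pow _ _ (by norm_num)
  unfold mu
  omega

theorem mu_odd (k : ℕ) (hk : 0 < k) : mu k % 2 = 1 := by
  have h := mu_spec k
  have h1 : 4 ^ k % 2 = 0 := by
    obtain ⟨m, rfl⟩ : ∃ m, k = m + 1 := ⟨k - 1, by omega⟩
    rw [pow_succ]
    omega
  omega

/-- the series `∑ b i * f ^ (4 ^ E - 4 ^ i)` -/
noncomputable def GG (J E : ℕ) (b : ℕ → Polynomial (ZMod 2)) : (ZMod 2)⟦X⟧ :=
  ∑ i ∈ range (J + 1), (b i : (ZMod 2)⟦X⟧) * pentagonalSeries (ZMod 2) ^ (4 ^ E - 4 ^ i)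

theorem coeff_f (E i : ℕ) (hi : i ≤ E) (n : ℕ) :
    coeff n (pentagonalSeries (ZMod 2) ^ (4 ^ E - 4 ^ i)) =
      if 4 ^ i ∣ n then coeff (8 * (n / 4 ^ i) + mu (E - i)) ((Db : S) ^ mu (E - i)) else 0 := by
  have h1 : 4 ^ E - 4 ^ i = 3 * mu (E - i) * 2 ^ (2 * i) := by
    have h2 := mu_spec (E - i)
    have h3 : 4 ^ E = 4 ^ (E - i) * 4 ^ i := by rw [← pow_add]; congr 1; omega
    have h4 : (2 : ℕ) ^ (2 * i) = 4 ^ i := by rw [pow_mul]; norm_num
    rw [h3, h4, h2, add_mul, one_mul, Nat.add_sub_cancel]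
  have h4 : (4 : ℕ) ^ i = 2 ^ (2 * i) := by rw [pow_mul]; norm_num
  rw [h1, pow_mul, pow_eq_expand, coeff_expand, ← h4]
  split_ifs with h
  · rw [coeff_Db_pow]
  · rfl

/-- a coefficient of a product with a polynomial vanishes -/
theorem coeff_mul_zero (p : Polynomial (ZMod 2)) (g : (ZMod 2)⟦X⟧) (n : ℕ)
    (h : ∀ j ≤ n, p.coeff j ≠ 0 → coeff (n - j) g = 0) :
    coeff n ((p : (ZMod 2)⟦X⟧) * g) = 0 := by
  rw [coeff_mul]
  refine sum_eq_zero fun q hq => ?_
  rw [Finset.HasAntidiagonal.mem_antidiagonal] at hq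
  rw [Polynomial.coeff_coe]
  by_cases h0 : p.coeff q.1 = 0
  · rw [h0, zero_mul]
  · have h2 : n - q.1 = q.2 := by omega
    have h3 := h q.1 (by omega) h0
    rw [h2] at h3
    rw [h3, mul_zero]

/-- a coefficient of a product with a polynomial is one of the products -/
theorem coeff_mul_one (p : Polynomial (ZMod 2)) (g : (ZMod 2)⟦X⟧) (n j0 : ℕ) (hj : j0 ≤ n)
    (h : ∀ j ≤ n, j ≠ j0 → p.coeff j ≠ 0 → coeff (n - j) g = 0) :
    coeff n ((p : (ZMod 2)⟦X⟧) * g) = p.coeff j0 * coeff (n - j0) g := by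
  rw [coeff_mul, sum_eq_single (j0, n - j0)]
  · rw [Polynomial.coeff_coe]
  · intro q hq hne
    rw [Finset.HasAntidiagonal.mem_antidiagonal] at hq
    rw [Polynomial.coeff_coe]
    by_cases h0 : p.coeff q.1 = 0
    · rw [h0, zero_mul]
    · have h2 : n - q.1 = q.2 := by omega
      have h3 := h q.1 (by omega) (fun h4 => hne (Prod.ext h4 (by simp only; omega))) h0
      rw [h2] at h3
      rw [h3, mul_zero]
  · intro h0
    exact absurd (Finset.HasAntidiagonal.mem_antidiagonal.2 (by simp only; omega)) h0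

/-- the value of the sum at one exponent -/
theorem coeff_GG (J E H : ℕ) (hJ : J < E) (b : ℕ → Polynomial (ZMod 2)) (j0 : ℕ)
    (hj0 : (b 0).coeff j0 = 1)
    (hV : ∀ i ≤ J, Vanish H ((Db : S) ^ mu (E - i))) (n z : ℕ) (hn : j0 ≤ n)
    (hz : z = 8 * (n - j0) + mu E)
    (hr : ∀ i ≤ J, ∀ j, (b i).coeff j ≠ 0 → (i ≠ 0 ∨ j ≠ j0) → ∃ R : Finset ℕ, R.card = H ∧
      ∀ r ∈ R, r.Prime ∧ r % 8 = 3 ∧ (r : ℤ) ∣ z + (8 * ((j0 : ℤ) - j) - mu i) ∧
        ¬ ((r : ℤ) ^ 2 ∣ z + (8 * ((j0 : ℤ) - j) - mu i))) :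
    coeff n (GG J E b) = coeff z ((Db : S) ^ mu E) := by
  have hterm : ∀ i ≤ J, ∀ j ≤ n, (b i).coeff j ≠ 0 → (i ≠ 0 ∨ j ≠ j0) →
      coeff (n - j) (pentagonalSeries (ZMod 2) ^ (4 ^ E - 4 ^ i)) = 0 := by
    intro i hi j hj hb hne
    rw [coeff_f E i (by omega)]
    split_ifs with hd
    · obtain ⟨R, hR, hRr⟩ := hr i hi j hb hne
      refine hV i hi _ R hR fun r hrR => ?_
      obtain ⟨r1, r2, r3, r4⟩ := hRr r hrR
      obtain ⟨q, hq⟩ := hd
      have h4 : 0 < 4 ^ i := by positivity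
      have hq' : (n - j) / 4 ^ i = q := by rw [hq, Nat.mul_div_cancel_left _ h4]
      rw [hq']
      set N : ℕ := 8 * q + mu (E - i) with hN
      have e1 : ((4 ^ i * N : ℕ) : ℤ) = z + (8 * ((j0 : ℤ) - j) - mu i) := by
        have a1 := mu_spec E
        have a2 := mu_spec i
        have a3 := mu_spec (E - i)
        have a4 : 4 ^ E = 4 ^ (E - i) * 4 ^ i := by rw [← pow_add]; congr 1; omega
        have a5 : ((n - j : ℕ) : ℤ) = 4 ^ i * q := by rw [hq]; push_cast; ring
        have a6 : ((n - j : ℕ) : ℤ) = (n : ℤ) - j := by push_cast [hj]; ring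
        have a7 : ((n - j0 : ℕ) : ℤ) = (n : ℤ) - j0 := by push_cast [hn]; ring
        have a8 : (3 : ℤ) * (4 ^ i * mu (E - i)) = 3 * mu E - 3 * mu i := by
          have b1 : (4 : ℤ) ^ E = 3 * mu E + 1 := by exact_mod_cast a1
          have b2 : (4 : ℤ) ^ i = 3 * mu i + 1 := by exact_mod_cast a2
          have b3 : (4 : ℤ) ^ (E - i) = 3 * mu (E - i) + 1 := by exact_mod_cast a3
          have b4 : (4 : ℤ) ^ E = 4 ^ (E - i) * 4 ^ i := by exact_mod_cast a4
          have b5 : (3 : ℤ) * mu E + 1 = (3 * mu (E - i) + 1) * 4 ^ i := by rw [← b1, ← b3, b4]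
          linear_combination -b5 - b2
        have a9 : (4 : ℤ) ^ i * mu (E - i) = mu E - mu i := by linarith
        have a10 : (z : ℤ) = 8 * ((n : ℤ) - j0) + mu E := by
          rw [hz]
          push_cast
          rw [a7]
        rw [hN]
        push_cast
        rw [a10]
        have a11 : (4 : ℤ) ^ i * (8 * q + mu (E - i)) = 8 * (4 ^ i * q) + 4 ^ i * mu (E - i) := by
          ring
        rw [a11, a9, ← a5, a6]
        ring
      rw [← e1] at r3 r4
      have hco : Nat.Coprime r (4 ^ i) := by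
        apply Nat.Coprime.pow_right
        rw [Nat.Prime.coprime_iff_not_dvd r1]
        intro h
        have h5 : r ≤ 4 := Nat.le_of_dvd (by norm_num) h
        have h6 : r = 3 := by omega
        subst h6
        omega
      refine ⟨r1, r2, ?_, ?_⟩
      · have h5 : r ∣ 4 ^ i * N := by exact_mod_cast r3
        exact hco.dvd_of_dvd_mul_left h5
      · intro h5
        apply r4
        have h6 : r ^ 2 ∣ 4 ^ i * N := Dvd.dvd.mul_left h5 _
        exact_mod_cast h6
    · rfl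
  unfold GG
  rw [map_sum, sum_eq_single 0]
  · rw [coeff_mul_one (b 0) _ n j0 hn (fun j hj hne hb => hterm 0 (Nat.zero_le _) j hj hb
      (Or.inr hne)), hj0, one_mul, coeff_f E 0 (Nat.zero_le _), pow_zero, if_pos (one_dvd _),
      Nat.div_one, Nat.sub_zero, hz]
  · intro i hi hi0
    rw [mem_range] at hi
    exact coeff_mul_zero _ _ _ fun j hj hb => hterm i (by omega) j hj hb (Or.inl hi0)
  · intro h
    exact absurd (mem_range.2 (by omega)) h

theorem vanish_of (k H : ℕ) (hk : 0 < k) (hH : cont ((mu k - 1) / 2) + 1 ≤ H) :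
    Vanish H ((Db : S) ^ mu k) := by
  intro N R hR h
  have h1 := mu_odd k hk
  have h2 : mu k = 2 * ((mu k - 1) / 2) + 1 := by omega
  rw [h2]
  exact coeff_vanish H _ (NIL.WW_mem (by omega)) N R hR h

end Low

open Low

open Classical in
/-- **many nonzero coefficients** -/
theorem t_LOW (hC : S_CRT) (J : ℕ) (b : ℕ → Polynomial (ZMod 2)) (hb : b 0 ≠ 0) (K : ℕ) :
    ∃ E : ℕ, J < E ∧ ∃ δ : ℝ, 0 < δ ∧ ∃ X0 : ℕ, ∀ x : ℕ, X0 ≤ x → δ * x / wK K x ≤
      (((range (x + 1)).filter fun n => coeff n (GG J E b) = 1).card : ℝ) := by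
  set E : ℕ := J + K + 2 with hE
  set μ : ℕ := mu E with hμ
  have hμ1 : μ % 2 = 1 := mu_odd E (by omega)
  have hμs := mu_spec E
  have hcont : K + 1 ≤ cont ((μ - 1) / 2) := by
    apply le_cont
    have h1 : 4 ^ E = 4 ^ J * (16 * 4 ^ K) := by rw [hE, pow_add, pow_add]; ring
    have h2 : 1 ≤ 4 ^ J := Nat.one_le_pow _ _ (by norm_num)
    have h3 : 1 ≤ 4 ^ K := Nat.one_le_pow _ _ (by norm_num)
    have h4 : 16 * 4 ^ K ≤ 4 ^ E := by rw [h1]; exact Nat.le_mul_of_pos_left _ h2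
    omega
  obtain ⟨j0, hj0⟩ : ∃ j, (b 0).coeff j ≠ 0 := by
    by_contra hcon
    push Not at hcon
    exact hb (Polynomial.ext fun j => by rw [hcon j, Polynomial.coeff_zero])
  have hj1 : (b 0).coeff j0 = 1 := (zmod_two _).resolve_left hj0
  set H : ℕ := ∑ i ∈ range (J + 1), (cont ((mu (E - i) - 1) / 2) + 1) with hH
  have hV : ∀ i ≤ J, Vanish H ((Db : S) ^ mu (E - i)) := by
    intro i hi
    apply vanish_of (E - i) H (by omega)
    rw [hH]
    exact single_le_sum (f := fun i => cont ((mu (E - i) - 1) / 2) + 1) (fun _ _ => Nat.zero_le _)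
      (mem_range.2 (by omega))
  -- the shifts
  set hs : Finset ℤ := ((range (J + 1)).biUnion fun i => (b i).support.image
    fun j : ℕ => (8 * ((j0 : ℤ) - j) - mu i)).erase 0 with hhs
  obtain ⟨Q, a, hQ, h8, hco, ha8, hR⟩ := hC H μ hμ1 hs (notMem_erase _ _)
  have hmany : Many (wK K) μ ((Db : S) ^ μ) := by
    have h2 : μ = 2 * ((μ - 1) / 2) + 1 := by omega
    rw [h2]
    exact many_Db _ K hcont
  obtain ⟨δ, hδ, X1, hX1⟩ := hmany Q a hQ h8 hco ha8
  set B : ℕ := μ + 1 with hB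
  have hinj : ∀ x : ℕ, 2 * j0 ≤ x → (((Icc 1 x).filter
      (fun N => N % Q = a % Q ∧ coeff N ((Db : S) ^ μ) = 1)).card : ℕ) ≤
      ((range (x + 1)).filter fun n => coeff n (GG J E b) = 1).card + B := by
    intro x hxj
    have hsub : (Icc 1 x).filter (fun N => N % Q = a % Q ∧ coeff N ((Db : S) ^ μ) = 1) ⊆
        (((range (x + 1)).filter fun n => coeff n (GG J E b) = 1).image
          fun n => 8 * (n - j0) + μ) ∪ range B := by
      intro p hp
      rw [mem_filter, mem_Icc] at hp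
      obtain ⟨⟨hp1, hp2⟩, hp4, hp3⟩ := hp
      rw [mem_union, mem_range, mem_image]
      by_cases hpB : p < B
      · exact Or.inr hpB
      · left
        push Not at hpB
        have hp8 : p % 8 = μ % 8 := by
          have h1 : p ≡ a [MOD 8] := Nat.ModEq.of_dvd h8 hp4
          exact h1.trans ha8
        obtain ⟨k, hk⟩ : ∃ k, p = 8 * k + μ := ⟨(p - μ) / 8, by omega⟩
        refine ⟨k + j0, ?_, by rw [Nat.add_sub_cancel]; exact hk.symm⟩
        rw [mem_filter, mem_range]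
        refine ⟨by omega, ?_⟩
        rw [coeff_GG J E H (by omega) b j0 hj1 hV (k + j0) p (by omega)
          (by rw [Nat.add_sub_cancel]; exact hk)]
        · exact hp3
        · intro i hi j hbj hne
          apply hR p hp4
          rw [hhs, mem_erase, mem_biUnion]
          constructor
          · intro h0
            rcases Nat.eq_zero_or_pos i with hi0 | hi0
            · subst hi0
              have hm0 : mu 0 = 0 := by
                have := mu_spec 0
                rw [pow_zero] at this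
                omega
              rw [hm0] at h0
              rcases hne with hne | hne
              · exact hne rfl
              · apply hne
                push_cast at h0
                omega
            · have := mu_odd i hi0
              omega
          · exact ⟨i, mem_range.2 (by omega), mem_image.2 ⟨j, by
              rw [Polynomial.mem_support_iff]; exact hbj, rfl⟩⟩
    calc _ ≤ _ := card_le_card hsub
      _ ≤ _ := card_union_le _ _
      _ ≤ _ := by
        rw [card_range]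
        exact Nat.add_le_add_right card_image_le B
  have hw := wt_wK K
  obtain ⟨X2, hX2⟩ := exists_nat_gt ((2 * (B : ℝ) / δ) ^ 2)
  obtain ⟨X3, hX3⟩ := hw.pos
  obtain ⟨X4, hX4⟩ := hw.small 1 one_pos
  refine ⟨E, by omega, δ / 2, by positivity, max (max X1 X2) (max (max X3 X4) (2 * j0 + 3)),
    fun x hx => ?_⟩
  simp only [max_le_iff] at hx
  obtain ⟨⟨hx1, hx2⟩, ⟨hx3, hx4⟩, hx5⟩ := hx
  have hxr : (0 : ℝ) < x := by
    have : 0 < x := by omega
    exact_mod_cast this
  obtain ⟨w1, -⟩ := hX3 x hx3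
  have w4 := hX4 x hx4
  rw [one_mul] at w4
  have e1 := hX1 x hx1
  have e2 : (((Icc 1 x).filter (fun N => N % Q = a % Q ∧ coeff N ((Db : S) ^ μ) = 1)).card : ℝ) ≤
      (((range (x + 1)).filter fun n => coeff n (GG J E b) = 1).card : ℝ) + B := by
    exact_mod_cast hinj x (by omega)
  have e5 : 2 * (B : ℝ) ≤ δ * Real.sqrt x := by
    have h3 : (2 * (B : ℝ) / δ) ^ 2 ≤ x := hX2.le.trans (by exact_mod_cast hx2)
    have h4 : 2 * (B : ℝ) / δ ≤ Real.sqrt x := Real.le_sqrt_of_sq_le h3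
    rw [div_le_iff₀ hδ] at h4
    linarith
  have e6 : Real.sqrt x ≤ x / wK K x := by
    rw [le_div_iff₀ w1]
    have h6 : Real.sqrt (x : ℝ) * Real.sqrt x = x := Real.mul_self_sqrt hxr.le
    nlinarith [Real.sqrt_nonneg (x : ℝ)]
  have e8 : δ / 2 * x / wK K x = δ * (x / wK K x) / 2 := by ring
  have e9 : δ * x / wK K x = δ * (x / wK K x) := by ring
  rw [e8]
  rw [e9] at e1
  have e10 : δ * Real.sqrt x ≤ δ * (x / wK K x) := mul_le_mul_of_nonneg_left e6 hδ.le
  linarith

end Pool.Agent.NH21.AU
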