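import Pool.Agent.NH21.AU.Stm2

/-!
# AV-4 (helper48): the series of a pattern with periodic coefficients
-/

set_option autoImplicit false

namespace Pool.Agent.NH21.AU

open Polynomial Finset

namespace PatH

/-- the polynomials -/
noncomputable def BB (L M : ℕ) (c : ℕ → Fin (L + 1) → ZMod 2) (r : ℕ) : (ZMod 2)[X] :=
  ∑ i : Fin (L + 1), Polynomial.monomial (L - (i : ℕ)) (c (r + (i : ℕ) * (M - 1)) i)

lemma per (L M : ℕ) (c : ℕ → Fin (L + 1) → ZMod 2) (hc : ∀ n i, c (n + M) i = c n i) (k n : ℕ)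
    (i : Fin (L + 1)) : c (n + M * k) i = c n i := by
  induction k with
  | zero => rw [Nat.mul_zero, Nat.add_zero]
  | succ k ih =>
    have h : n + M * (k + 1) = (n + M * k) + M := by ring
    rw [h, hc, ih]

lemma per_mod (L M : ℕ) (c : ℕ → Fin (L + 1) → ZMod 2) (hc : ∀ n i, c (n + M) i = c n i)
    (m n : ℕ) (h : m % M = n % M) (i : Fin (L + 1)) : c m i = c n i := by
  have h1 : c m i = c (m % M) i := by
    conv_lhs => rw [← Nat.mod_add_div m M]
    exact per L M c hc _ _ i
  have h2 : c n i = c (n % M) i := by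
    conv_lhs => rw [← Nat.mod_add_div n M]
    exact per L M c hc _ _ i
  rw [h1, h2, h]

lemma val (L M : ℕ) (hM : 0 < M) (c : ℕ → Fin (L + 1) → ZMod 2)
    (hc : ∀ n i, c (n + M) i = c n i) (n : ℕ) (i : Fin (L + 1)) :
    c ((n + (i : ℕ)) % M + (i : ℕ) * (M - 1)) i = c n i := by
  apply per_mod L M c hc
  rw [Nat.add_mod, Nat.mod_mod, ← Nat.add_mod]
  have h : n + (i : ℕ) + (i : ℕ) * (M - 1) = n + M * (i : ℕ) := by
    obtain ⟨m, rfl⟩ : ∃ m, M = m + 1 := ⟨M - 1, by omega⟩
    rw [Nat.add_sub_cancel]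
    ring
  rw [h, Nat.add_mul_mod_self_left]

lemma coeff_term (L k : ℕ) (a : ZMod 2) (Φ : PowerSeries (ZMod 2)) (n i : ℕ) (hi : i ≤ L)
    (hk : k = L - i) :
    PowerSeries.coeff (n + L) (((Polynomial.monomial k a : (ZMod 2)[X]) : PowerSeries (ZMod 2)) * Φ) =
      a * PowerSeries.coeff (n + i) Φ := by
  rw [← Polynomial.C_mul_X_pow_eq_monomial, Polynomial.coe_mul, Polynomial.coe_C,
    Polynomial.coe_pow, Polynomial.coe_X, mul_assoc, PowerSeries.coeff_C_mul,
    PowerSeries.coeff_X_pow_mul', if_pos (by omega)]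
  have e : n + L - k = n + i := by omega
  rw [e]

lemma coeff_cls (M r n : ℕ) (Φ : PowerSeries (ZMod 2)) :
    PowerSeries.coeff n (cls M r Φ) = if n % M = r % M then PowerSeries.coeff n Φ else 0 := by
  unfold cls
  rw [PowerSeries.coeff_mk]

lemma coe_BB (L M : ℕ) (c : ℕ → Fin (L + 1) → ZMod 2) (r : ℕ) :
    (BB L M c r : PowerSeries (ZMod 2)) = ∑ i : Fin (L + 1),
      ((Polynomial.monomial (L - (i : ℕ)) (c (r + (i : ℕ) * (M - 1)) i) : (ZMod 2)[X]) :
        PowerSeries (ZMod 2)) := by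
  unfold BB
  have h := map_sum (Polynomial.coeToPowerSeries.ringHom (R := ZMod 2))
    (fun i : Fin (L + 1) => Polynomial.monomial (L - (i : ℕ)) (c (r + (i : ℕ) * (M - 1)) i)) univ
  simpa only [Polynomial.coeToPowerSeries.ringHom_apply] using h

end PatH

theorem t_PAT : S_PAT := by
  intro L M hM c hc hne
  refine ⟨PatH.BB L M c, ?_, ?_⟩
  · obtain ⟨n0, i0, h0⟩ := hne
    refine ⟨(n0 + (i0 : ℕ)) % M, Nat.mod_lt _ hM, ?_⟩
    intro h
    apply h0
    have h1 : (PatH.BB L M c ((n0 + (i0 : ℕ)) % M)).coeff (L - (i0 : ℕ)) = 0 := by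
      rw [h, Polynomial.coeff_zero]
    unfold PatH.BB at h1
    rw [Polynomial.finsetSum_coeff, sum_eq_single i0] at h1
    · rw [Polynomial.coeff_monomial, if_pos rfl, PatH.val L M hM c hc] at h1
      exact h1
    · intro j _ hj
      rw [Polynomial.coeff_monomial, if_neg]
      intro h2
      apply hj
      apply Fin.ext
      have := j.isLt
      have := i0.isLt
      omega
    · intro h2
      exact absurd (mem_univ _) h2
  · intro P n
    have h1 : PowerSeries.coeff (n + L)
        (∑ r ∈ range M, (PatH.BB L M c r : PowerSeries (ZMod 2)) * cls M r P) =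
        ∑ r ∈ range M, ∑ i : Fin (L + 1), c (r + (i : ℕ) * (M - 1)) i *
          (if (n + (i : ℕ)) % M = r % M then PowerSeries.coeff (n + (i : ℕ)) P else 0) := by
      rw [map_sum]
      refine sum_congr rfl fun r _ => ?_
      rw [PatH.coe_BB, sum_mul, map_sum]
      refine sum_congr rfl fun i _ => ?_
      rw [PatH.coeff_term L (L - (i : ℕ)) _ _ n (i : ℕ) (by have := i.isLt; omega) rfl,
        PatH.coeff_cls]
    rw [h1, sum_comm]
    refine sum_congr rfl fun i _ => ?_
    rw [sum_eq_single ((n + (i : ℕ)) % M)]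
    · rw [if_pos (Nat.mod_mod _ _).symm, PatH.val L M hM c hc]
    · intro r hr hne'
      rw [if_neg, mul_zero]
      intro h2
      apply hne'
      rw [h2, Nat.mod_eq_of_lt (mem_range.1 hr)]
    · intro h2
      exact absurd (mem_range.2 (Nat.mod_lt _ hM)) h2

end Pool.Agent.NH21.AU
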