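import Pool.Agent.NH21.AU.Stm

/-!
# Project AU, part ROOT: taking roots of a relation (helper41)
-/

set_option autoImplicit false

namespace Pool.Agent.NH21.AU

open Polynomial Finset

namespace ROOT

theorem pow_expand (k : ℕ) (f : PowerSeries (ZMod 2)) :
    f ^ (2 ^ k) = PowerSeries.expand (2 ^ k) (by positivity) f := by
  have h := MvPowerSeries.map_iterateFrobenius_expand (σ := Unit) 2 two_ne_zero f k
  rw [← h]
  have hid : iterateFrobenius (ZMod 2) 2 k = RingHom.id (ZMod 2) := by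
    ext x
    simp [iterateFrobenius_def]
  rw [hid, MvPowerSeries.map_id]
  rfl

/-- sections of a power series -/
noncomputable def sec (M r : ℕ) (f : PowerSeries (ZMod 2)) : PowerSeries (ZMod 2) :=
  PowerSeries.mk fun n => PowerSeries.coeff (M * n + r) f

theorem sec_mul (M r : ℕ) (hM : M ≠ 0) (hr : r < M) (A ψ : PowerSeries (ZMod 2)) :
    sec M r (A * PowerSeries.expand M hM ψ) = sec M r A * ψ := by
  ext n
  have hM0 : 0 < M := Nat.pos_of_ne_zero hM
  rw [sec, PowerSeries.coeff_mk, PowerSeries.coeff_mul, PowerSeries.coeff_mul]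
  symm
  refine Finset.sum_of_injOn (fun p : ℕ × ℕ => (M * p.1 + r, M * p.2)) ?_ ?_ ?_ ?_
  · rintro ⟨p1, p2⟩ - ⟨q1, q2⟩ - h
    have h1 : M * p1 + r = M * q1 + r := congrArg Prod.fst h
    have h2 : M * p2 = M * q2 := congrArg Prod.snd h
    have h3 := Nat.eq_of_mul_eq_mul_left hM0 (Nat.add_right_cancel h1)
    have h4 := Nat.eq_of_mul_eq_mul_left hM0 h2
    rw [h3, h4]
  · rintro ⟨p1, p2⟩ hp
    rw [Finset.mem_coe, Finset.HasAntidiagonal.mem_antidiagonal] at hp ⊢
    change M * p1 + r + M * p2 = M * n + r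
    rw [← hp]
    ring
  · rintro ⟨q1, q2⟩ hq hn
    rw [Finset.HasAntidiagonal.mem_antidiagonal] at hq
    change q1 + q2 = M * n + r at hq
    rw [PowerSeries.coeff_expand]
    split_ifs with hd
    · exfalso
      obtain ⟨m, hm⟩ := hd
      change q2 = M * m at hm
      apply hn
      have hmn : m ≤ n := by
        by_contra hcon
        have h1 : M * (n + 1) ≤ M * m := Nat.mul_le_mul_left M (by omega)
        rw [mul_add, mul_one] at h1
        omega
      obtain ⟨l, rfl⟩ := Nat.exists_eq_add_of_le hmn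
      refine ⟨(l, m), ?_, ?_⟩
      · rw [Finset.mem_coe, Finset.HasAntidiagonal.mem_antidiagonal]
        exact Nat.add_comm l m
      · change (M * l + r, M * m) = (q1, q2)
        rw [← hm]
        have : q1 = M * l + r := by
          rw [hm, mul_add] at hq
          omega
        rw [this]
    · exact mul_zero _
  · rintro ⟨p1, p2⟩ -
    change PowerSeries.coeff p1 (sec M r A) * PowerSeries.coeff p2 ψ =
      PowerSeries.coeff (M * p1 + r) A * PowerSeries.coeff (M * p2) (PowerSeries.expand M hM ψ)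
    rw [sec, PowerSeries.coeff_mk, PowerSeries.coeff_expand, if_pos (Dvd.intro _ rfl),
      Nat.mul_div_cancel_left _ hM0]

theorem sec_sum (M r : ℕ) {ι : Type} (s : Finset ι) (f : ι → PowerSeries (ZMod 2)) :
    sec M r (∑ i ∈ s, f i) = ∑ i ∈ s, sec M r (f i) := by
  ext n
  rw [sec, PowerSeries.coeff_mk, map_sum, map_sum]
  exact Finset.sum_congr rfl fun i _ => by rw [sec, PowerSeries.coeff_mk]

/-- sections of a polynomial -/
noncomputable def secP (M r : ℕ) (p : (ZMod 2)[X]) : (ZMod 2)[X] :=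
  ∑ n ∈ range (p.natDegree + 1), monomial n (p.coeff (M * n + r))

theorem coeff_secP (M r : ℕ) (hM : 0 < M) (p : (ZMod 2)[X]) (n : ℕ) :
    (secP M r p).coeff n = p.coeff (M * n + r) := by
  unfold secP
  rw [finsetSum_coeff]
  simp only [coeff_monomial]
  rw [Finset.sum_ite_eq']
  split_ifs with h
  · rfl
  · rw [Finset.mem_range] at h
    symm
    apply coeff_eq_zero_of_natDegree_lt
    have : 1 * n ≤ M * n := Nat.mul_le_mul_right n hM
    omega

theorem coe_secP (M r : ℕ) (hM : 0 < M) (p : (ZMod 2)[X]) :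
    ((secP M r p : (ZMod 2)[X]) : PowerSeries (ZMod 2)) = sec M r (p : PowerSeries (ZMod 2)) := by
  ext n
  rw [Polynomial.coeff_coe, coeff_secP M r hM, sec, PowerSeries.coeff_mk, Polynomial.coeff_coe]

end ROOT

open ROOT in
theorem t_ROOT : S_ROOT := by
  classical
  intro U J a hex hrel
  obtain ⟨i0, hi0, hmin⟩ : ∃ i0, (i0 ≤ J ∧ a i0 ≠ 0) ∧ ∀ i, i < i0 → a i = 0 := by
    refine ⟨Nat.find hex, Nat.find_spec hex, fun i hi => ?_⟩
    have h1 := Nat.find_min hex hi
    have h2 := (Nat.find_spec hex).1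
    by_contra h3
    exact h1 ⟨by omega, h3⟩
  obtain ⟨j0, hj0⟩ : ∃ j0, (a i0).coeff j0 ≠ 0 := by
    by_contra hcon
    push Not at hcon
    exact hi0.2 (Polynomial.ext fun n => by rw [hcon n, coeff_zero])
  obtain ⟨J', rfl⟩ := Nat.exists_eq_add_of_le hi0.1
  obtain ⟨M, hM⟩ : ∃ M : ℕ, M = 2 ^ (2 * i0) := ⟨_, rfl⟩
  have hM0 : 0 < M := by rw [hM]; positivity
  have hMe : M = 4 ^ i0 := by rw [hM, pow_mul]; norm_num
  refine ⟨J', fun i => secP M (j0 % M) (a (i0 + i)), ?_, ?_⟩
  · intro h
    have h1 := coeff_secP M (j0 % M) hM0 (a (i0 + 0)) (j0 / M)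
    beta_reduce at h
    rw [h, coeff_zero, Nat.div_add_mod, Nat.add_zero] at h1
    exact hj0 h1.symm
  · have h1 : sec M (j0 % M) (rel (i0 + J') a U) = 0 := by
      rw [hrel]
      ext n
      rw [sec, PowerSeries.coeff_mk, map_zero, map_zero]
    have h2 : rel (i0 + J') a U = ∑ i ∈ range (J' + 1),
        (a (i0 + i) : PowerSeries (ZMod 2)) * PowerSeries.expand M hM0.ne' (U ^ (4 ^ i)) := by
      unfold rel
      rw [show i0 + J' + 1 = i0 + (J' + 1) by ring, Finset.sum_range_add]
      rw [Finset.sum_eq_zero (s := range i0) (fun i hi => by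
        rw [hmin i (Finset.mem_range.1 hi), Polynomial.coe_zero, zero_mul]), zero_add]
      refine Finset.sum_congr rfl fun i _ => ?_
      congr 1
      rw [pow_add, mul_comm (4 ^ i0), pow_mul, ← hMe]
      subst hM
      exact pow_expand _ _
    rw [h2, sec_sum] at h1
    unfold rel
    rw [← h1]
    refine Finset.sum_congr rfl fun i _ => ?_
    rw [sec_mul M (j0 % M) hM0.ne' (Nat.mod_lt _ hM0), coe_secP M _ hM0]

end Pool.Agent.NH21.AU
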