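import Mathlib

/-!
# Parity of the partition function against automatic sequences: statements of the parts

A sequence `u` with values in `ZMod 2` is 2-automatic if its 2-kernel is finite.
-/

set_option autoImplicit false

namespace Pool.Agent.NH21.AU

open Polynomial Finset

/-- `u` is 2-automatic: the set of the sequences `n ↦ u (2 ^ k * n + r)`, `0 ≤ r < 2 ^ k`, is finite -/
def Aut (u : ℕ → ZMod 2) : Prop :=
  {v : ℕ → ZMod 2 | ∃ k r : ℕ, r < 2 ^ k ∧ v = fun n => u (2 ^ k * n + r)}.Finite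

/-- the sum of the `a i * U ^ (4 ^ i)`, `i ≤ J` -/
noncomputable def rel (J : ℕ) (a : ℕ → (ZMod 2)[X]) (U : PowerSeries (ZMod 2)) :
    PowerSeries (ZMod 2) :=
  ∑ i ∈ range (J + 1), (a i : PowerSeries (ZMod 2)) * U ^ (4 ^ i)

/-- AU-1: the powers `U ^ (4 ^ i)` are linearly dependent over the polynomials -/
def S_DEP : Prop := ∀ u : ℕ → ZMod 2, Aut u → ∃ (J : ℕ) (a : ℕ → (ZMod 2)[X]),
  (∃ i ≤ J, a i ≠ 0) ∧ rel J a (PowerSeries.mk u) = 0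

/-- AU-2: taking roots, the coefficient of `U` may be assumed to be nonzero -/
def S_ROOT : Prop := ∀ (U : PowerSeries (ZMod 2)) (J : ℕ) (a : ℕ → (ZMod 2)[X]),
  (∃ i ≤ J, a i ≠ 0) → rel J a U = 0 →
  ∃ (J' : ℕ) (a' : ℕ → (ZMod 2)[X]), a' 0 ≠ 0 ∧ rel J' a' U = 0

/-- AU-3: a residue class on which finitely many shifts are exactly divisible by many primes -/
def S_CRT : Prop := ∀ (H μ : ℕ), μ % 2 = 1 → ∀ hs : Finset ℤ, (0 : ℤ) ∉ hs →
  ∃ Q a : ℕ, 0 < Q ∧ 8 ∣ Q ∧ a.Coprime Q ∧ a % 8 = μ % 8 ∧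
    ∀ z : ℕ, z % Q = a % Q → ∀ h ∈ hs, ∃ R : Finset ℕ, R.card = H ∧ ∀ r ∈ R, r.Prime ∧ r % 8 = 3 ∧
      (r : ℤ) ∣ z + h ∧ ¬ ((r : ℤ) ^ 2 ∣ z + h)

open Classical in
/-- the number of the nonzero coefficients up to `x` -/
noncomputable def nzc (R : PowerSeries (ZMod 2)) (x : ℕ) : ℕ :=
  ((range (x + 1)).filter fun n => PowerSeries.coeff n R ≠ 0).card

/-- AU-4: number of the nonzero coefficients of `rel J a R` -/
def S_MUL : Prop := ∀ (J : ℕ) (a : ℕ → (ZMod 2)[X]), ∃ D : ℕ, ∀ (R : PowerSeries (ZMod 2)) (x : ℕ),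
  nzc (rel J a R) x ≤ D * nzc R x

/-- AU-5: `rel J a (C * P + X ^ L * U) = rel J b P` if `rel J a' U = 0`, for suitable `a`, `b` -/
def S_COMB : Prop := ∀ (J : ℕ) (a' : ℕ → (ZMod 2)[X]) (U P : PowerSeries (ZMod 2)) (C : (ZMod 2)[X]) (L : ℕ),
  C ≠ 0 → a' 0 ≠ 0 → rel J a' U = 0 →
  ∃ a b : ℕ → (ZMod 2)[X], b 0 ≠ 0 ∧
    rel J a ((C : PowerSeries (ZMod 2)) * P + PowerSeries.X ^ L * U) = rel J b P

end Pool.Agent.NH21.AU
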